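import Pool.Agent.BK.ArtinCompact
import Pool.Agent.BK.AvoidGen

/-!
Artin's induction theorem for the Galois group of a number field, with subgroups that are cyclic
modulo a common open normal subgroup and avoid a thin set of subgroups.
-/

namespace Pool.BK

namespace ArtinAvoid

open ArtinCompact

section Level

variable {G : Type} [Group G] [TopologicalSpace G] [IsTopologicalGroup G]
    [CompactSpace G] [TotallyDisconnectedSpace G]

theorem desc {ι : Type} [Fintype ι] (H : ι → Subgroup G) (a : ι → ℤ) (N : Subgroup G) [N.Normal]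
    (hNH : ∀ i, N ≤ H i) (g : G) : ∑ i, a i * (fixCount (H i) g : ℤ) =
      ∑ i, a i * (fixCount ((H i).map (QuotientGroup.mk' N)) (QuotientGroup.mk' N g) : ℤ) := by
  refine Finset.sum_congr rfl fun i _ => ?_
  have h1 : ((H i).map (QuotientGroup.mk' N)).comap (QuotientGroup.mk' N) = H i := by
    rw [Subgroup.comap_map_eq, QuotientGroup.ker_mk', sup_eq_left.2 (hNH i)]
  have h2 := fixCount_comap (QuotientGroup.mk' N) (QuotientGroup.mk'_surjective N)
    ((H i).map (QuotientGroup.mk' N)) g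
  rw [h1] at h2
  rw [h2]

/-- A level at which the good subgroups are visible. -/
theorem exists_level (good : Subgroup G → Prop) {ι : Type} [Fintype ι] (H : ι → Subgroup G)
    (hH : ∀ i, IsOpen (H i : Set G)) (a : ι → ℤ)
    (hbad : ∀ g, (∀ U : Subgroup G, IsOpen (U : Set G) → g ∈ U → ¬ good U) →
      ∑ i, a i * (fixCount (H i) g : ℤ) = 0) (U₀ : Subgroup G) (hU₀ : IsOpen (U₀ : Set G)) :
    ∃ N : Subgroup G, N.Normal ∧ IsOpen (N : Set G) ∧ N ≤ U₀ ∧ (∀ i, N ≤ H i) ∧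
      ∀ g, ∑ i, a i * (fixCount (H i) g : ℤ) ≠ 0 → ∃ U : Subgroup G, good U ∧ g ∈ U ∧ N ≤ U := by
  classical
  set ψ : G → ℤ := fun g => ∑ i, a i * (fixCount (H i) g : ℤ) with hψ
  -- first open normal subgroup
  have hU0 : IsOpen (⋂ i, (H i : Set G)) := isOpen_iInter_of_finite hH
  obtain ⟨N0, hN0⟩ := ProfiniteGrp.exist_openNormalSubgroup_sub_open_nhds_of_one hU0
    (Set.mem_iInter.2 fun i => (H i).one_mem)
  have hN0H : ∀ i, (N0 : Subgroup G) ≤ H i := fun i x hx =>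
    Set.mem_iInter.1 (hN0 hx) i
  -- the set where `ψ ≠ 0` is compact
  have hclosed : IsClosed {g | ψ g ≠ 0} := by
    rw [← isOpen_compl_iff, isOpen_iff_mem_nhds]
    intro g hg
    have h0 : ψ g = 0 := by
      by_contra h
      exact hg h
    have hopen : IsOpen ((fun x => g⁻¹ * x) ⁻¹' (N0 : Set G)) :=
      N0.isOpen.preimage (continuous_const_mul g⁻¹)
    refine Filter.mem_of_superset (hopen.mem_nhds ?_) ?_
    · simp only [Set.mem_preimage, inv_mul_cancel]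
      exact N0.one_mem
    · intro x hx
      have h3 : QuotientGroup.mk' (N0 : Subgroup G) x = QuotientGroup.mk' (N0 : Subgroup G) g := by
        symm
        exact QuotientGroup.eq.2 hx
      intro hx0
      refine hx0 ?_
      have h4 := desc H a (N0 : Subgroup G) hN0H
      change ∑ i, a i * (fixCount (H i) x : ℤ) = 0
      rw [h4 x, h3, ← h4 g]
      exact h0
  have hcompact : IsCompact {g | ψ g ≠ 0} := hclosed.isCompact
  have hcov : ∀ g, ψ g ≠ 0 → ∃ U : Subgroup G, IsOpen (U : Set G) ∧ g ∈ U ∧ good U := by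
    intro g hg
    by_contra hne
    push Not at hne
    exact hg (hbad g hne)
  choose! U hUo hUg hUgood using hcov
  obtain ⟨t, htc⟩ := hcompact.elim_nhds_subcover' (fun g _ => (U g : Set G))
    (fun g hg => (hUo g hg).mem_nhds (hUg g hg))
  -- second open normal subgroup
  have hU1 : IsOpen (((N0 : Set G) ∩ ⋂ x ∈ t, (U (x : G) : Set G)) ∩ (U₀ : Set G)) := by
    refine (N0.isOpen.inter ?_).inter hU₀
    exact isOpen_biInter_finset fun x _ => hUo _ x.2
  have hone : (1 : G) ∈ (((N0 : Set G) ∩ ⋂ x ∈ t, (U (x : G) : Set G)) ∩ (U₀ : Set G)) :=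
    ⟨⟨N0.one_mem, Set.mem_iInter₂.2 fun x _ => (U (x : G)).one_mem⟩, U₀.one_mem⟩
  obtain ⟨N, hN⟩ := ProfiniteGrp.exist_openNormalSubgroup_sub_open_nhds_of_one hU1 hone
  refine ⟨(N : Subgroup G), inferInstance, N.isOpen, fun x hx => (hN hx).2,
    fun i => le_trans (fun x hx => (hN hx).1.1) (hN0H i), fun g hg => ?_⟩
  have hgX : g ∈ {g | ψ g ≠ 0} := hg
  obtain ⟨y, hy, hgy⟩ := Set.mem_iUnion₂.1 (htc hgX)
  exact ⟨U (y : G), hUgood _ y.2, hgy, fun z hz => Set.mem_iInter₂.1 (hN hz).1.2 y hy⟩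

/-- Artin's theorem at a given level. -/
theorem at_level (good : Subgroup G → Prop) (hgood : ∀ H H', H ≤ H' → good H' → good H)
    {ι : Type} [Fintype ι] (H : ι → Subgroup G) (a : ι → ℤ) (W : Subgroup G) [W.Normal]
    (hW : IsOpen (W : Set G)) (hWH : ∀ i, W ≤ H i)
    (hlev : ∀ g, ∑ i, a i * (fixCount (H i) g : ℤ) ≠ 0 →
      ∃ U : Subgroup G, good U ∧ g ∈ U ∧ W ≤ U) :
    ∃ (m : ℕ) (κ : Type) (_ : Fintype κ) (C : κ → Subgroup G) (b : κ → ℤ), 0 < m ∧
      (∀ j, W ≤ C j ∧ good (C j) ∧ ∃ g, C j = Subgroup.zpowers g ⊔ W) ∧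
      ∀ g, (m : ℤ) * ∑ i, a i * (fixCount (H i) g : ℤ) = ∑ j, b j * (fixCount (C j) g : ℤ) := by
  classical
  set ψ : G → ℤ := fun g => ∑ i, a i * (fixCount (H i) g : ℤ) with hψ
  have hfin : Finite (G ⧸ W) := Subgroup.quotient_finite_of_isOpen _ hW
  set π := QuotientGroup.mk' W with hπ
  have hπs : Function.Surjective π := QuotientGroup.mk'_surjective _
  have hd : ∀ g, ψ g = ∑ i, a i * (fixCount ((H i).map π) (π g) : ℤ) := desc H a W hWH
  set Ψ : G ⧸ W → ℤ := fun x => ∑ i, a i * (fixCount ((H i).map π) x : ℤ) with hΨ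
  have hΨψ : ∀ g, Ψ (π g) = ψ g := fun g => (hd g).symm
  obtain ⟨b, hb1, hb2⟩ := artin Ψ
    (fun x y hxy => Finset.sum_congr rfl fun i _ => by rw [fixCount_zpowers _ hxy])
    (fun x g => Finset.sum_congr rfl fun i _ => by rw [fixCount_conj])
  have hfinS : Finite (Subgroup (G ⧸ W)) := inferInstance
  have hfinK : Fintype {C : Subgroup (G ⧸ W) // b C ≠ 0} := Fintype.ofFinite _
  have hWC : ∀ C : Subgroup (G ⧸ W), W ≤ C.comap π := by
    intro C x hx
    rw [Subgroup.mem_comap]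
    have : π x = 1 := (QuotientGroup.eq_one_iff x).2 hx
    rw [this]
    exact C.one_mem
  refine ⟨Nat.card (G ⧸ W), {C : Subgroup (G ⧸ W) // b C ≠ 0},
    hfinK, fun C => C.1.comap π, fun C => b C.1, Nat.card_pos, ?_, ?_⟩
  · rintro ⟨C, hC⟩
    obtain ⟨x, hx1, hx2⟩ := hb1 C hC
    refine ⟨hWC C, ?_, ?_⟩
    · obtain ⟨g, rfl⟩ := hπs x
      rw [hΨψ] at hx2
      obtain ⟨U, hU1, hU2, hU3⟩ := hlev g hx2
      refine hgood _ U ?_ hU1
      refine (Subgroup.comap_mono hx1).trans ?_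
      intro z hz
      rw [Subgroup.mem_comap, Subgroup.mem_zpowers_iff] at hz
      obtain ⟨k, hk⟩ := hz
      have h5 : (g ^ k)⁻¹ * z ∈ W := by
        rw [← map_zpow] at hk
        exact QuotientGroup.eq.1 hk
      have h6 := U.mul_mem (U.zpow_mem hU2 k) (hU3 h5)
      rwa [mul_inv_cancel_left] at h6
    · have hcyc : IsCyclic C := isCyclic_of_injective (Subgroup.inclusion hx1)
        (Subgroup.inclusion_injective hx1)
      obtain ⟨y, hy⟩ := (Subgroup.isCyclic_iff_exists_zpowers_eq_top C).1 hcyc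
      obtain ⟨g, hg⟩ := hπs y
      refine ⟨g, ?_⟩
      have h1 : (Subgroup.zpowers g ⊔ W).map π = C := by
        rw [Subgroup.map_sup, MonoidHom.map_zpowers, hg, hy]
        have : W.map π = ⊥ := by
          rw [Subgroup.map_eq_bot_iff, hπ, QuotientGroup.ker_mk']
        rw [this, sup_bot_eq]
      have h2 : ((Subgroup.zpowers g ⊔ W).map π).comap π = Subgroup.zpowers g ⊔ W := by
        rw [Subgroup.comap_map_eq, hπ, QuotientGroup.ker_mk', sup_eq_left]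
        exact le_sup_right
      rw [← h2, h1]
  · intro g
    have h7 := hb2 (π g)
    rw [hΨψ] at h7
    have hF : Fintype (Subgroup (G ⧸ W)) := Fintype.ofFinite _
    rw [h7, finsum_eq_sum_of_fintype,
      ← Finset.sum_filter_of_ne (p := fun C => b C ≠ 0) (fun C _ hC hb => hC (by rw [hb, zero_mul])),
      Finset.sum_subtype (Finset.univ.filter fun C => b C ≠ 0) (p := fun C => b C ≠ 0)
        (by simp)]
    refine Finset.sum_congr rfl fun C _ => ?_
    rw [fixCount_comap π hπs]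

end Level

/-- a group in which the square of every element lies in the normal subgroup `D` of index 4 is not
generated by `D` and one element -/
theorem not_top {G : Type} [Group G] (D : Subgroup G) [D.Normal] (hD : D.index = 4)
    (hsq : ∀ g, g ^ 2 ∈ D) (g : G) : Subgroup.zpowers g ⊔ D ≠ ⊤ := by
  intro h
  have h1 : (Subgroup.zpowers g ⊔ D).map (QuotientGroup.mk' D) = ⊤ := by
    rw [h, ← MonoidHom.range_eq_map, MonoidHom.range_eq_top.2 (QuotientGroup.mk'_surjective D)]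
  have h2 : D.map (QuotientGroup.mk' D) = ⊥ := by
    rw [Subgroup.map_eq_bot_iff, QuotientGroup.ker_mk']
  rw [Subgroup.map_sup, MonoidHom.map_zpowers, h2, sup_bot_eq] at h1
  have h3 : Nat.card (G ⧸ D) = orderOf (QuotientGroup.mk' D g) := by
    rw [← Nat.card_zpowers, h1, Nat.card_congr Subgroup.topEquiv.toEquiv]
  have h4 : orderOf (QuotientGroup.mk' D g) ∣ 2 := by
    rw [orderOf_dvd_iff_pow_eq_one, ← map_pow]
    exact (QuotientGroup.eq_one_iff _).2 (hsq g)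
  have h5 := Nat.le_of_dvd (by norm_num) h4
  have h6 : Nat.card (G ⧸ D) = 4 := hD
  omega

end ArtinAvoid

open ArtinAvoid

variable (K : Type) [Field K] [NumberField K] (Ω : Type) [Field Ω] [Algebra K Ω] [IsAlgClosed Ω]
  [Algebra.IsAlgebraic K Ω]

theorem artin_avoid (good : Subgroup (Ω ≃ₐ[K] Ω) → Prop)
    (hgood : ∀ H H', H ≤ H' → good H' → good H) {ι : Type} [Fintype ι]
    (H : ι → Subgroup (Ω ≃ₐ[K] Ω)) (hH : ∀ i, IsOpen (H i : Set (Ω ≃ₐ[K] Ω))) (a : ι → ℤ)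
    (hbad : ∀ g, (∀ U : Subgroup (Ω ≃ₐ[K] Ω), IsOpen (U : Set (Ω ≃ₐ[K] Ω)) → g ∈ U → ¬ good U) →
      ∑ i, a i * (fixCount (H i) g : ℤ) = 0)
    (X : Set (Subgroup (Ω ≃ₐ[K] Ω)))
    (hX : ∀ n : ℕ, 0 < n → {U | U ∈ X ∧ IsOpen (U : Set (Ω ≃ₐ[K] Ω)) ∧ U.index = n}.Finite)
    (U₀ : Subgroup (Ω ≃ₐ[K] Ω)) (hU₀ : IsOpen (U₀ : Set (Ω ≃ₐ[K] Ω))) :
    ∃ (m : ℕ) (κ : Type) (_ : Fintype κ) (C : κ → Subgroup (Ω ≃ₐ[K] Ω)) (b : κ → ℤ)
      (W : Subgroup (Ω ≃ₐ[K] Ω)), 0 < m ∧ W.Normal ∧ IsOpen (W : Set (Ω ≃ₐ[K] Ω)) ∧ W ≤ U₀ ∧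
      W ∉ X ∧ (∀ j, W ≤ C j ∧ good (C j) ∧ C j ∉ X ∧ ∃ g, C j = Subgroup.zpowers g ⊔ W) ∧
      ∀ g, (m : ℤ) * ∑ i, a i * (fixCount (H i) g : ℤ) = ∑ j, b j * (fixCount (C j) g : ℤ) := by
  classical
  have hG : IsGalois K Ω := Frob.isGalois
  have hcpt : CompactSpace (Ω ≃ₐ[K] Ω) := inferInstance
  have hind : ∀ U : Subgroup (Ω ≃ₐ[K] Ω), IsOpen (U : Set (Ω ≃ₐ[K] Ω)) → U.index ≠ 0 := by
    intro U hU
    have : Finite ((Ω ≃ₐ[K] Ω) ⧸ U) := Subgroup.quotient_finite_of_isOpen U hU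
    exact Subgroup.finiteIndex_of_finite_quotient.index_ne_zero
  obtain ⟨N, hNn, hNo, hNU₀, hNH, hlev⟩ := exists_level good H hH a hbad U₀ hU₀
  -- the members of `X` of small index
  let X' : Set (Subgroup (Ω ≃ₐ[K] Ω)) := {U | U ∈ X ∧ IsOpen (U : Set (Ω ≃ₐ[K] Ω)) ∧
    U.index ≤ N.index * 4}
  have hX' : X'.Finite := by
    refine ((Set.finite_Icc 1 (N.index * 4)).biUnion fun n hn => hX n hn.1).subset ?_
    rintro U ⟨h1, h2, h3⟩
    refine Set.mem_iUnion₂.2 ⟨U.index, ⟨Nat.one_le_iff_ne_zero.2 (hind U h2), h3⟩, h1, h2, rfl⟩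
  let Y : Subgroup (Ω ≃ₐ[K] Ω) := N ⊓ sInf X'
  have hY : IsOpen (Y : Set (Ω ≃ₐ[K] Ω)) := by
    rw [Subgroup.coe_inf, Subgroup.coe_sInf]
    exact hNo.inter (hX'.isOpen_biInter fun U hU => hU.2.1)
  obtain ⟨D, hDn, hDo, hDi, hDq, -, hDY⟩ := AvoidGen.exists_quot_disjoint K Ω 2 2 Y hY
  have hWo : IsOpen ((N ⊓ D : Subgroup (Ω ≃ₐ[K] Ω)) : Set (Ω ≃ₐ[K] Ω)) := by
    rw [Subgroup.coe_inf]
    exact hNo.inter hDo
  have hWi : (N ⊓ D).index ≤ N.index * 4 := by
    have := Subgroup.index_inf_le (H := N) (K := D)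
    rw [hDi] at this
    exact this
  have hav : ∀ g, Subgroup.zpowers g ⊔ (N ⊓ D) ∉ X := by
    intro g hg
    have h1 : IsOpen ((Subgroup.zpowers g ⊔ (N ⊓ D) : Subgroup (Ω ≃ₐ[K] Ω)) :
        Set (Ω ≃ₐ[K] Ω)) := Subgroup.isOpen_mono le_sup_right hWo
    have h2 : (Subgroup.zpowers g ⊔ (N ⊓ D)).index ≤ N.index * 4 := by
      refine le_trans (Nat.le_of_dvd (Nat.pos_of_ne_zero (hind _ hWo))
        (Subgroup.index_dvd_of_le le_sup_right)) hWi
    have h3 : Y ≤ Subgroup.zpowers g ⊔ (N ⊓ D) := inf_le_right.trans (sInf_le ⟨hg, h1, h2⟩)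
    refine not_top D (by rw [hDi]; norm_num) hDq g (top_le_iff.1 ?_)
    rw [← hDY]
    refine sup_le le_sup_right (h3.trans (sup_le_sup_left inf_le_right _))
  obtain ⟨m, κ, hκ, C, b, hm, hC, hrel⟩ := at_level good hgood H a (N ⊓ D) hWo
    (fun i => inf_le_left.trans (hNH i)) (fun g hg => by
      obtain ⟨U, h1, h2, h3⟩ := hlev g hg
      exact ⟨U, h1, h2, inf_le_left.trans h3⟩)
  refine ⟨m, κ, hκ, C, b, N ⊓ D, hm, inferInstance, hWo, inf_le_left.trans hNU₀, ?_, ?_, hrel⟩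
  · have := hav 1
    rwa [Subgroup.zpowers_one_eq_bot, bot_sup_eq] at this
  · intro j
    obtain ⟨h1, h2, g, h3⟩ := hC j
    refine ⟨h1, h2, ?_, g, h3⟩
    rw [h3]
    exact hav g

end Pool.BK
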