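import Pool.Agent.BKT.RelGen
import Pool.Agent.BKT.ArtinAvoid
import Pool.Agent.BK.ReductionLocal
import Pool.Agent.BK.Almost

/-!
The validity of the order of vanishing formula for twists by Artin representations is a local
question, given the formula over the totally complex, locally trivial fields.
-/

open scoped Pointwise NumberField
open Polynomial IsDedekindDomain

namespace Pool.BK

namespace LocalGen

/-- common denominators -/
theorem exists_denom {J : Type} [Fintype J] (c : J → ℚ) :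
    ∃ (n : ℕ) (c' : J → ℤ), 0 < n ∧ ∀ j, (n : ℚ) * c j = c' j := by
  classical
  refine ⟨∏ j, (c j).den, fun j => (c j).num * ∏ i ∈ Finset.univ.erase j, ((c i).den : ℤ),
    Finset.prod_pos fun j _ => (c j).den_pos, fun j => ?_⟩
  rw [← Finset.mul_prod_erase _ _ (Finset.mem_univ j)]
  push_cast
  have h1 : (c j) * ((c j).den : ℚ) = (c j).num := Rat.mul_den_eq_num (c j)
  rw [← h1]
  ring

end LocalGen

section Main

variable (K : Type) [Field K] [NumberField K] (Ω : Type) [Field Ω] [Algebra K Ω] [IsAlgClosed Ω]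
  [Algebra.IsAlgebraic K Ω]

open ReductionLocal in
theorem reduction_local_gen (V : LSystem (Ω ≃ₐ[K] Ω))
    (B : ∀ (p : ℕ) [Fact p.Prime], PeriodData (Ω ≃ₐ[K] Ω) (𝓞 Ω) p)
    (F : IntermediateField K Ω) [NumberField F] [Normal K F]
    (F₁ : IntermediateField K Ω) [NumberField F₁]
    (T : Set (HeightOneSpectrum (𝓞 K))) (hT : T.Finite) (N : ℕ) (hN : 0 < N)
    (X : Set (IntermediateField K Ω))
    (hX : ∀ n : ℕ, 0 < n → {L | L ∈ X ∧ Module.finrank K L = n}.Finite)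
    (h : ∀ (L : IntermediateField K Ω) [NumberField L], NumberField.IsTotallyComplex L →
      LocTriv F T L → L ∉ X → N ∣ Module.finrank K L →
      (∃ (W : Subgroup (Ω ≃ₐ[K] Ω)) (_ : W.Normal), IsOpen (W : Set (Ω ≃ₐ[K] Ω)) ∧
        W ≤ F₁.fixingSubgroup ∧ W ≤ L.fixingSubgroup ∧
        IsCyclic (L.fixingSubgroup.map (QuotientGroup.mk' W))) →
      ∃ m : ℕ, 0 < m ∧ BKInd K L Ω V B m)
    {J : Type} [Fintype J] (r' : J → ℕ)
    (θ' : ∀ j, (Ω ≃ₐ[K] Ω) →* Matrix (Fin (r' j)) (Fin (r' j)) ℚ)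
    (hθ' : ∀ j, IsOpen ((θ' j).ker : Set (Ω ≃ₐ[K] Ω)))
    (h' : ∀ j, ∃ m : ℕ, 0 < m ∧ BKpow K Ω (V.twist (θ' j) (hθ' j)) B m)
    {r : ℕ} (θ : (Ω ≃ₐ[K] Ω) →* Matrix (Fin r) (Fin r) ℚ)
    (hθ : IsOpen (θ.ker : Set (Ω ≃ₐ[K] Ω))) (c : J → ℚ)
    (ha : ∀ σ : Ω ≃ₐ[K] Ω, IsConj σ ∨ IsLoc F T σ →
      (θ σ).trace = ∑ j, c j * (θ' j σ).trace) :
    ∃ m : ℕ, 0 < m ∧ BKpow K Ω (V.twist θ hθ) B m := by
  classical
  have hgal := H1Relation.isGalois (K := K) (Ω := Ω)
  obtain ⟨n, c', hn, hc'⟩ := LocalGen.exists_denom c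
  obtain ⟨m₁, hm₁, k₀, E₀, a₀, hE₀, ha₀⟩ := exists_permMultiple K Ω θ hθ
  choose m' hm' k E' a' hE' ha' using fun j => exists_permMultiple K Ω (θ' j) (hθ' j)
  have hopenF : ∀ L : IntermediateField K Ω, NumberField L →
      IsOpen (L.fixingSubgroup : Set (Ω ≃ₐ[K] Ω)) := by
    intro L hL
    have : FiniteDimensional K L := H1Relation.finite_of_numberField L
    exact L.fixingSubgroup_isOpen
  let M : ℕ := ∏ j, m' j
  let M' : J → ℕ := fun j => ∏ i ∈ Finset.univ.erase j, m' i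
  have hM' : ∀ j, m' j * M' j = M := fun j =>
    Finset.mul_prod_erase _ _ (Finset.mem_univ j)
  have hM0 : 0 < M := Finset.prod_pos fun j _ => hm' j
  -- all the fields
  let Y : Fin k₀ ⊕ (Σ j, Fin (k j)) → IntermediateField K Ω :=
    Sum.elim E₀ fun y => E' y.1 y.2
  have hY : ∀ y, NumberField (Y y) := by
    rintro (l | ⟨j, l⟩)
    · exact hE₀ l
    · exact hE' j l
  let co : Fin k₀ ⊕ (Σ j, Fin (k j)) → ℤ :=
    Sum.elim (fun l => ((n * M : ℕ) : ℤ) * a₀ l)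
      fun y => -((m₁ : ℤ) * c' y.1 * (M' y.1 : ℤ) * a' y.1 y.2)
  have hco : ∀ g, ((∑ y, co y * (fixCount (Y y).fixingSubgroup g : ℤ) : ℤ) : ℚ) =
      (M : ℚ) * m₁ * ((n : ℚ) * (θ g).trace - ∑ j, (c' j : ℚ) * (θ' j g).trace) := by
    intro g
    rw [Fintype.sum_sum_type, Fintype.sum_sigma]
    simp only [co, Y, Sum.elim_inl, Sum.elim_inr]
    push_cast
    have e1 : ∑ l, (n : ℚ) * (M : ℚ) * (a₀ l : ℚ) * (fixCount (E₀ l).fixingSubgroup g : ℚ) =
        (n : ℚ) * (M : ℚ) * (m₁ * (θ g).trace) := by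
      rw [← ha₀ g, Finset.mul_sum]
      exact Finset.sum_congr rfl fun l _ => by ring
    have e2 : ∀ j, ∑ l, -((m₁ : ℚ) * (c' j : ℚ) * (M' j : ℚ) * (a' j l : ℚ)) *
        (fixCount (E' j l).fixingSubgroup g : ℚ) =
        -((M : ℚ) * m₁ * ((c' j : ℚ) * (θ' j g).trace)) := by
      intro j
      have e3 : ∑ l, -((m₁ : ℚ) * (c' j : ℚ) * (M' j : ℚ) * (a' j l : ℚ)) *
        (fixCount (E' j l).fixingSubgroup g : ℚ) = -((m₁ : ℚ) * (c' j : ℚ) * (M' j : ℚ)) *
          ∑ l, (a' j l : ℚ) * (fixCount (E' j l).fixingSubgroup g : ℚ) := by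
        rw [Finset.mul_sum]
        exact Finset.sum_congr rfl fun l _ => by ring
      rw [e3, ha' j g, ← hM' j]
      push_cast
      ring
    rw [e1, Finset.sum_congr rfl fun j _ => e2 j, Finset.sum_neg_distrib, ← Finset.mul_sum]
    ring
  -- a large field
  obtain ⟨U, hU1, hU2, hU3, hU4⟩ := H1Relation.exists_normal Y
  have hUo : IsOpen ((U ⊓ (θ.ker ⊓ ⨅ j, (θ' j).ker) : Subgroup (Ω ≃ₐ[K] Ω)) :
      Set (Ω ≃ₐ[K] Ω)) := by
    rw [Subgroup.coe_inf, Subgroup.coe_inf, Subgroup.coe_iInf]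
    exact hU3.inter (hθ.inter (isOpen_iInter_of_finite hθ'))
  obtain ⟨hL₀, hL₀fix⟩ := fixedField_of_isOpen (U ⊓ (θ.ker ⊓ ⨅ j, (θ' j).ker)) hUo
  obtain ⟨L₁, hL₁, g1, g2, g3, g4, g5⟩ := exists_large
    (IntermediateField.fixedField (U ⊓ (θ.ker ⊓ ⨅ j, (θ' j).ker))) F F₁ N hN
  -- Artin's formula
  let X' : Set (Subgroup (Ω ≃ₐ[K] Ω)) := {U | IntermediateField.fixedField U ∈ X}
  have hX' : ∀ n : ℕ, 0 < n →
      {U | U ∈ X' ∧ IsOpen (U : Set (Ω ≃ₐ[K] Ω)) ∧ U.index = n}.Finite := by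
    intro n hn
    refine Set.Finite.of_finite_image (f := fun U : Subgroup (Ω ≃ₐ[K] Ω) =>
      IntermediateField.fixedField U) ((hX n hn).subset ?_) ?_
    · rintro _ ⟨U, ⟨hUX, hUo, hUn⟩, rfl⟩
      exact ⟨hUX, by rw [Almost.finrank_fixedField U hUo, hUn]⟩
    · rintro U ⟨-, hUo, -⟩ U' ⟨-, hUo', -⟩ hUU
      have hUU' : IntermediateField.fixedField U = IntermediateField.fixedField U' := hUU
      rw [← (Reduction.open_field U hUo).2, ← (Reduction.open_field U' hUo').2, hUU']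
  obtain ⟨m₂, κ, _, C, b, W, hm₂, hWn, hWo, hWU, hWX, hC, hrel⟩ := artin_avoid K Ω
    (fun U => ∃ L' : IntermediateField K Ω, NumberField L' ∧
      NumberField.IsTotallyComplex L' ∧ LocTriv F T L' ∧ N ∣ Module.finrank K L' ∧
          U ≤ L'.fixingSubgroup)
    (fun H H' hHH' ⟨L', h1, h2, h3, h4, h5⟩ => ⟨L', h1, h2, h3, h4, hHH'.trans h5⟩)
    (fun y => (Y y).fixingSubgroup) (fun y => hopenF _ (hY y)) co
    (by
      intro g hg
      have hbad : IsConj g ∨ IsLoc F T g := by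
        refine BadLocalFine.core (fun σ Q Q' => two_primes σ Q Q') F T hT g fun L₀ _ h0 ⟨h1, h2⟩ => ?_
        obtain ⟨L', hL', hle, hgL', hN'⟩ := ReductionLocal.exists_big_dvd L₀ g h0 N hN
        exact hg L'.fixingSubgroup (hopenF L' hL') hgL' ⟨L', hL', tc_of_le hle h1,
          locTriv_of_le hle h2, hN', le_rfl⟩
      have h1 := hco g
      rw [ha g hbad, Finset.mul_sum] at h1
      have h2 : ∑ j, (n : ℚ) * (c j * (θ' j g).trace) - ∑ j, (c' j : ℚ) * (θ' j g).trace = 0 := by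
        rw [← Finset.sum_sub_distrib]
        refine Finset.sum_eq_zero fun j _ => ?_
        rw [← hc' j]
        ring
      rw [h2, mul_zero] at h1
      exact_mod_cast h1) X' hX' L₁.fixingSubgroup (hopenF L₁ hL₁)
  -- the field of `W`
  obtain ⟨hM₀, hM₀fix⟩ := fixedField_of_isOpen W hWo
  have hle₁ : L₁ ≤ IntermediateField.fixedField W := (IntermediateField.le_iff_le _ _).2 hWU
  have hWF₁ : W ≤ F₁.fixingSubgroup := hWU.trans (IntermediateField.fixingSubgroup_antitone g3)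
  have hbk₀ : ∃ m : ℕ, 0 < m ∧ BKInd K (IntermediateField.fixedField W) Ω V B m := by
    refine h _ (tc_of_le hle₁ g4) (locTriv_of_le_right T (g2.trans hle₁)) hWX
      (g5.trans (finrank_dvd hle₁)) ⟨W, hWn, hWo, hWF₁, hM₀fix.ge, ?_⟩
    have h1 : (IntermediateField.fixedField W).fixingSubgroup.map (QuotientGroup.mk' W) = ⊥ := by
      rw [Subgroup.map_eq_bot_iff, QuotientGroup.ker_mk', hM₀fix]
    rw [h1]
    infer_instance
  have hWker : W ≤ U ⊓ (θ.ker ⊓ ⨅ j, (θ' j).ker) := by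
    rw [← hL₀fix]
    exact hWU.trans (IntermediateField.fixingSubgroup_antitone g1)
  -- the fields of the `C j`
  have hCo : ∀ j, IsOpen (C j : Set (Ω ≃ₐ[K] Ω)) := fun j => Subgroup.isOpen_mono (hC j).1 hWo
  have hF : ∀ j, NumberField (IntermediateField.fixedField (C j)) := fun j =>
    (fixedField_of_isOpen (C j) (hCo j)).1
  have hFix : ∀ j, (IntermediateField.fixedField (C j)).fixingSubgroup = C j := fun j =>
    (fixedField_of_isOpen (C j) (hCo j)).2
  have hFbk : ∀ j, ∃ m : ℕ, 0 < m ∧ BKInd K (IntermediateField.fixedField (C j)) Ω V B m := by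
    intro j
    obtain ⟨hWC, ⟨L', _, h2, h3, h4, h6⟩, hCX, g, hg⟩ := hC j
    have hle : L' ≤ IntermediateField.fixedField (C j) := (IntermediateField.le_iff_le _ _).2 h6
    refine h _ (tc_of_le hle h2) (locTriv_of_le hle h3) hCX (h4.trans (finrank_dvd hle))
      ⟨W, hWn, hWo, hWF₁, by rw [hFix j]; exact hWC, ?_⟩
    rw [hFix j, hg, Subgroup.map_sup, MonoidHom.map_zpowers]
    have h7 : W.map (QuotientGroup.mk' W) = ⊥ := by
      rw [Subgroup.map_eq_bot_iff, QuotientGroup.ker_mk']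
    rw [h7, sup_bot_eq]
    infer_instance
  refine rel_twist_gen K Ω V B θ hθ r' θ' hθ' (fun j => IntermediateField.fixedField (C j))
    (hE := hF) b (fun j => (m₂ : ℤ) * M * m₁ * c' j) (m₂ * M * m₁ * n)
    (Nat.mul_pos (Nat.mul_pos (Nat.mul_pos hm₂ hM0) hm₁) hn) (fun g => ?_) m' hm' k E' a' hE' ha'
    (IntermediateField.fixedField W) (by rw [hM₀fix]; exact hWn) ?_ ?_ ?_ ?_ ?_ hFbk h'
  · have h1 := hrel g
    have h2 : ((m₂ : ℤ) * ∑ y, co y * (fixCount (Y y).fixingSubgroup g : ℤ) : ℚ) =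
        ∑ j, (b j : ℚ) * (fixCount (C j) g : ℚ) := by exact_mod_cast h1
    have h3 := hco g
    push_cast at h2 h3
    rw [h3] at h2
    have h4 : ∑ j, (b j : ℚ) * (fixCount (IntermediateField.fixedField (C j)).fixingSubgroup g : ℚ) =
        ∑ j, (b j : ℚ) * (fixCount (C j) g : ℚ) :=
      Finset.sum_congr rfl fun j _ => by rw [hFix j]
    have h5 : ∑ j, (((m₂ : ℤ) * M * m₁ * c' j : ℤ) : ℚ) * (θ' j g).trace =
        (m₂ : ℚ) * M * m₁ * ∑ j, (c' j : ℚ) * (θ' j g).trace := by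
      rw [Finset.mul_sum]
      refine Finset.sum_congr rfl fun j _ => ?_
      push_cast
      ring
    rw [h4, ← h2, h5]
    push_cast
    ring
  · rw [hM₀fix]
    exact (hWker.trans inf_le_right).trans inf_le_left
  · intro j
    rw [hM₀fix]
    exact ((hWker.trans inf_le_right).trans inf_le_right).trans (iInf_le _ j)
  · intro j
    rw [hM₀fix, hFix j]
    exact (hC j).1
  · intro j l
    rw [hM₀fix]
    exact (hWker.trans inf_le_left).trans (hU4 (Sum.inr ⟨j, l⟩))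
  · intro p _
    obtain ⟨m, hm, P, hP, σ₀, U, Λ, hU, hσU, hUt, hΛ, hprod, hord⟩ := hbk₀
    exact (hord p).1

end Main

end Pool.BK
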