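import Pool.Agent.BK.Artin
import Pool.Agent.BK.HyperCore
import Pool.Agent.BK.Psum

/-!
# Artin's theorem for rational representations
-/

open Polynomial

namespace Pool.BK

namespace RatChar

/-- the trace of a power is the sum of the powers of the roots -/
theorem trace_pow_eq {L : Type} [Field L] [IsAlgClosed L] {r : ℕ} (B : Matrix (Fin r) (Fin r) L)
    {k : ℕ} (hk : 0 < k) : (B ^ k).trace = (B.charpoly.roots.map (fun μ => μ ^ k)).sum := by
  classical
  set R := B.charpoly.roots.toList with hR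
  let d : Fin R.length → L := fun i => R.get i
  have h1 : (Matrix.diagonal d).charpoly = B.charpoly := by
    rw [Matrix.charpoly_diagonal]
    have h2 : B.charpoly = (B.charpoly.roots.map (fun a => X - C a)).prod :=
      (IsAlgClosed.splits B.charpoly).eq_prod_roots_of_monic B.charpoly_monic
    rw [h2, ← Multiset.coe_toList B.charpoly.roots, Multiset.map_coe, Multiset.prod_coe, ← hR]
    rw [← List.prod_ofFn]
    congr 1
    exact (List.ofFn_getElem_eq_map R (fun a => X - C a))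
  have h2 := Psum.psum_charpolyRev B hk
  have h3 := Psum.psum_charpolyRev (Matrix.diagonal d) hk
  rw [h1, h2, Matrix.diagonal_pow, Matrix.trace_diagonal] at h3
  rw [h3, ← Multiset.coe_toList B.charpoly.roots, Multiset.map_coe, Multiset.sum_coe, ← hR,
    ← List.sum_ofFn]
  congr 1
  exact (List.ofFn_getElem_eq_map R (fun a => a ^ k))

theorem root_pow {L : Type} [Field L] {r : ℕ} (B : Matrix (Fin r) (Fin r) L)
    {N : ℕ} (hB : B ^ N = 1) {μ : L} (hμ : μ ∈ B.charpoly.roots) : μ ^ N = 1 := by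
  classical
  have h1 : IsRoot B.charpoly μ := (Polynomial.mem_roots'.mp hμ).2
  have h2 : μ ∈ spectrum L B := Matrix.mem_spectrum_iff_isRoot_charpoly.mpr h1
  have h3 := spectrum.pow_mem_pow B N h2
  rw [hB] at h3
  have : Nonempty (Fin r) := by
    by_contra hcon
    rw [not_nonempty_iff] at hcon
    rw [Matrix.charpoly_isEmpty, Polynomial.roots_one] at hμ
    exact absurd hμ (Multiset.notMem_zero _)
  rw [spectrum.one_eq] at h3
  exact h3

/-- the trace of a rational matrix of finite order is an integer -/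
theorem trace_int {r : ℕ} (A : Matrix (Fin r) (Fin r) ℚ) {N : ℕ} (hN : 0 < N) (hA : A ^ N = 1) :
    ∃ z : ℤ, (z : ℚ) = A.trace := by
  classical
  let L := AlgebraicClosure ℚ
  set B : Matrix (Fin r) (Fin r) L := A.map (algebraMap ℚ L) with hB
  have hBN : B ^ N = 1 := by
    rw [hB, ← Matrix.map_pow A (algebraMap ℚ L), hA, Matrix.map_one _ (map_zero _) (map_one _)]
  have h1 : algebraMap ℚ L A.trace = B.charpoly.roots.sum := by
    rw [← Matrix.trace_eq_sum_roots_charpoly, hB]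
    exact AddMonoidHom.map_trace (algebraMap ℚ L) A
  have h2 : IsIntegral ℤ (algebraMap ℚ L A.trace) := by
    rw [h1]
    apply IsIntegral.multiset_sum
    intro μ hμ
    exact IsIntegral.of_pow hN (by rw [root_pow B hBN hμ]; exact isIntegral_one)
  have h3 : IsIntegral ℤ A.trace :=
    (isIntegral_algebraMap_iff (algebraMap ℚ L).injective).mp h2
  obtain ⟨z, hz⟩ := (IsIntegrallyClosed.isIntegral_iff (R := ℤ) (K := ℚ)).mp h3
  exact ⟨z, by rw [← hz]; simp⟩

/-- a rational relation between the powers of a root of unity is stable under conjugation -/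
theorem eval_conj {N : ℕ} (hN : 0 < N) {ζ ξ : ℂ} (hζ : IsPrimitiveRoot ζ N)
    (hξ : IsPrimitiveRoot ξ N) (P : ℚ[X]) (hP : eval₂ (algebraMap ℚ ℂ) ζ P = 0) :
    eval₂ (algebraMap ℚ ℂ) ξ P = 0 := by
  have : NeZero (N : ℂ) := ⟨by exact_mod_cast hN.ne'⟩
  have hroot : ∀ z : ℂ, IsPrimitiveRoot z N → eval₂ (algebraMap ℚ ℂ) z (cyclotomic N ℚ) = 0 := by
    intro z hz
    have h1 : IsRoot (cyclotomic N ℂ) z := isRoot_cyclotomic_iff.mpr hz
    rw [← map_cyclotomic N (algebraMap ℚ ℂ), IsRoot.def, eval_map] at h1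
    exact h1
  have hdvd : cyclotomic N ℚ ∣ P := by
    by_contra hcon
    have h1 : IsCoprime (cyclotomic N ℚ) P :=
      ((cyclotomic.irreducible_rat hN).coprime_iff_not_dvd).mpr hcon
    obtain ⟨u, v, huv⟩ := h1
    have h2 := congrArg (eval₂ (algebraMap ℚ ℂ) ζ) huv
    rw [eval₂_add, eval₂_mul, eval₂_mul, hroot ζ hζ, hP, mul_zero, mul_zero, add_zero,
      eval₂_one] at h2
    exact zero_ne_one h2
  obtain ⟨Q, rfl⟩ := hdvd
  rw [eval₂_mul, hroot ξ hξ, zero_mul]

/-- the trace is the same at the generators of a cyclic group -/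
theorem trace_pow_coprime {r : ℕ} (A : Matrix (Fin r) (Fin r) ℚ) {N : ℕ}
    (hN : 0 < N)
    (hA : A ^ N = 1) {k : ℕ} (hk : 0 < k) (hkN : Nat.Coprime k N) : (A ^ k).trace = A.trace := by
  classical
  set B : Matrix (Fin r) (Fin r) ℂ := A.map (algebraMap ℚ ℂ) with hB
  have hBpow : ∀ m : ℕ, B ^ m = (A ^ m).map (algebraMap ℚ ℂ) := by
    intro m
    rw [hB, ← Matrix.map_pow A (algebraMap ℚ ℂ)]
  have hBN : B ^ N = 1 := by
    rw [hBpow, hA, Matrix.map_one _ (map_zero _) (map_one _)]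
  have htr : ∀ m : ℕ, algebraMap ℚ ℂ (A ^ m).trace = (B ^ m).trace := by
    intro m
    rw [hBpow]
    exact AddMonoidHom.map_trace (algebraMap ℚ ℂ) (A ^ m)
  have hζ := Complex.isPrimitiveRoot_exp N hN.ne'
  set ζ := Complex.exp (2 * Real.pi * Complex.I / N) with hζdef
  have hξ : IsPrimitiveRoot (ζ ^ k) N := hζ.pow_of_coprime k hkN
  have : NeZero N := ⟨hN.ne'⟩
  have hlog : ∀ μ : ℂ, ∃ a : ℕ, μ ∈ B.charpoly.roots → ζ ^ a = μ := by
    intro μ
    by_cases hμ : μ ∈ B.charpoly.roots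
    · obtain ⟨i, _, hi⟩ := hζ.eq_pow_of_pow_eq_one (root_pow B hBN hμ)
      exact ⟨i, fun _ => hi⟩
    · exact ⟨0, fun h => absurd h hμ⟩
  choose a ha using hlog
  set P : ℚ[X] := (B.charpoly.roots.map (fun μ => (X : ℚ[X]) ^ (a μ))).sum - C A.trace with hPdef
  have hev : ∀ z : ℂ, eval₂ (algebraMap ℚ ℂ) z P =
      (B.charpoly.roots.map (fun μ => z ^ (a μ))).sum - algebraMap ℚ ℂ A.trace := by
    intro z
    rw [hPdef, eval₂_sub, eval₂_C]
    congr 1
    rw [eval₂_multiset_sum, Multiset.map_map]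
    congr 1
    apply Multiset.map_congr rfl
    intro μ _
    simp
  have h1 : algebraMap ℚ ℂ A.trace = B.charpoly.roots.sum := by
    have := htr 1
    rw [pow_one, pow_one] at this
    rw [this, Matrix.trace_eq_sum_roots_charpoly]
  have h2 : eval₂ (algebraMap ℚ ℂ) ζ P = 0 := by
    rw [hev, h1, sub_eq_zero]
    conv_rhs => rw [← Multiset.map_id B.charpoly.roots]
    congr 1
    apply Multiset.map_congr rfl
    intro μ hμ
    exact ha μ hμ
  have h3 := eval_conj hN hζ hξ P h2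
  rw [hev, sub_eq_zero] at h3
  have h4 : algebraMap ℚ ℂ (A ^ k).trace = algebraMap ℚ ℂ A.trace := by
    rw [htr k, trace_pow_eq B hk, ← h3]
    congr 1
    apply Multiset.map_congr rfl
    intro μ hμ
    calc μ ^ k = (ζ ^ a μ) ^ k := by rw [ha μ hμ]
      _ = (ζ ^ k) ^ a μ := by rw [← pow_mul, ← pow_mul, mul_comm]
  exact (algebraMap ℚ ℂ).injective h4

end RatChar

theorem RatChar.aux {G Γ : Type} [Group G] [Group Γ] [Finite Γ] {r : ℕ} (f : G →* Γ)
    (hf : Function.Surjective f) (θ : Γ →* Matrix (Fin r) (Fin r) ℚ) :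
    ∃ (ι : Type) (_ : Fintype ι) (H : ι → Subgroup G) (a : ι → ℤ) (m : ℕ), 0 < m ∧
      (∀ i, f.ker ≤ H i ∧ ∃ x : G, ∀ h ∈ H i, ∃ k : ℤ, x ^ k * h ∈ f.ker) ∧
      ∀ g, ∑ i, (a i : ℚ) * (fixCount (H i) g : ℚ) = m * (θ (f g)).trace := by
  classical
  have hord : ∀ x : Γ, θ x ^ orderOf x = 1 := by
    intro x
    rw [← map_pow, pow_orderOf_eq_one, map_one]
  choose ψ hψ using fun x : Γ => RatChar.trace_int (θ x) (orderOf_pos x) (hord x)
  have hψ1 : ∀ x y, Subgroup.zpowers x = Subgroup.zpowers y → ψ x = ψ y := by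
    intro x y hxy
    have h1 : y ∈ Subgroup.zpowers x := by
      rw [hxy]
      exact Subgroup.mem_zpowers y
    rw [← mem_powers_iff_mem_zpowers, Submonoid.mem_powers_iff] at h1
    obtain ⟨k, hk⟩ := h1
    have h2 : orderOf x = orderOf y := by
      rw [← Nat.card_zpowers, ← Nat.card_zpowers, hxy]
    -- a positive exponent
    set k' := k + orderOf x with hk'
    have hk'0 : 0 < k' := by
      have := orderOf_pos x
      omega
    have hk'x : x ^ k' = y := by
      rw [hk', pow_add, pow_orderOf_eq_one, mul_one, hk]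
    have hcop : Nat.Coprime k' (orderOf x) := by
      have h3 := orderOf_pow' x hk'0.ne'
      rw [hk'x, ← h2] at h3
      have h4 := orderOf_pos x
      have h5 : Nat.gcd (orderOf x) k' ∣ orderOf x := Nat.gcd_dvd_left _ _
      have h6 : 0 < Nat.gcd (orderOf x) k' := Nat.gcd_pos_of_pos_left _ h4
      have h7 : orderOf x / Nat.gcd (orderOf x) k' * Nat.gcd (orderOf x) k' = orderOf x :=
        Nat.div_mul_cancel h5
      rw [← h3] at h7
      have h8 : Nat.gcd (orderOf x) k' = 1 := by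
        have : orderOf x * Nat.gcd (orderOf x) k' = orderOf x * 1 := by rw [h7, mul_one]
        exact Nat.eq_of_mul_eq_mul_left h4 this
      rw [Nat.coprime_comm]
      exact h8
    have h3 := RatChar.trace_pow_coprime (θ x) (orderOf_pos x) (hord x) hk'0 hcop
    rw [← map_pow, hk'x, ← hψ, ← hψ] at h3
    exact_mod_cast h3.symm
  have hψ2 : ∀ x g, ψ (g⁻¹ * x * g) = ψ x := by
    intro x g
    have h1 : ((ψ (g⁻¹ * x * g) : ℤ) : ℚ) = ψ x := by
      rw [hψ, hψ, map_mul, Matrix.trace_mul_comm, ← map_mul]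
      congr 2
      group
    exact_mod_cast h1
  obtain ⟨b, hb1, hb2⟩ := artin ψ hψ1 hψ2
  have : Fintype (Subgroup Γ) := Fintype.ofFinite _
  refine ⟨{C : Subgroup Γ // b C ≠ 0}, inferInstance, fun C => C.1.comap f,
    fun C => b C.1, Nat.card Γ, Nat.card_pos, ?_, ?_⟩
  · intro C
    constructor
    · intro x hx
      rw [Subgroup.mem_comap, MonoidHom.mem_ker.mp hx]
      exact one_mem _
    · obtain ⟨x, hx, _⟩ := hb1 C.1 C.2
      obtain ⟨y, rfl⟩ := hf x
      refine ⟨y, ?_⟩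
      intro h hh
      rw [Subgroup.mem_comap] at hh
      have h1 := hx hh
      rw [Subgroup.mem_zpowers_iff] at h1
      obtain ⟨k, hk⟩ := h1
      refine ⟨-k, ?_⟩
      rw [MonoidHom.mem_ker, map_mul, map_zpow, zpow_neg, hk]
      exact inv_mul_cancel _
  · intro g
    have h1 := hb2 (f g)
    rw [finsum_eq_sum_of_fintype] at h1
    have h2 : ∑ C : {C : Subgroup Γ // b C ≠ 0}, ((b C.1 : ℤ) : ℚ) *
        (fixCount (C.1.comap f) g : ℚ) =
        ∑ C : Subgroup Γ, ((b C : ℤ) : ℚ) * (fixCount C (f g) : ℚ) := by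
      have h3 : ∀ C : Subgroup Γ, (fixCount (C.comap f) g : ℚ) = (fixCount C (f g) : ℚ) := by
        intro C
        rw [Hyper.fixCount_comap f hf C g]
      simp_rw [h3]
      rw [← Finset.sum_subtype (Finset.univ.filter (fun C : Subgroup Γ => b C ≠ 0)) (by simp)
        (fun C : Subgroup Γ => ((b C : ℤ) : ℚ) * (fixCount C (f g) : ℚ))]
      apply Finset.sum_subset (Finset.filter_subset _ _)
      intro C _ hC
      rw [Finset.mem_filter] at hC
      have : b C = 0 := by
        by_contra h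
        exact hC ⟨Finset.mem_univ _, h⟩
      rw [this]
      simp
    rw [h2]
    have h3 : ((Nat.card Γ : ℤ) : ℚ) * ((ψ (f g) : ℤ) : ℚ) =
        ∑ C : Subgroup Γ, ((b C : ℤ) : ℚ) * (fixCount C (f g) : ℚ) := by
      exact_mod_cast h1
    rw [← h3, hψ]
    push_cast
    rfl

theorem ratChar_relation {G : Type} [Group G] {r : ℕ} (θ : G →* Matrix (Fin r) (Fin r) ℚ)
    [θ.ker.FiniteIndex] :
    ∃ (ι : Type) (_ : Fintype ι) (H : ι → Subgroup G) (a : ι → ℤ) (m : ℕ), 0 < m ∧
      (∀ i, θ.ker ≤ H i ∧ ∃ x : G, ∀ h ∈ H i, ∃ k : ℤ, x ^ k * h ∈ θ.ker) ∧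
      ∀ g, ∑ i, (a i : ℚ) * (fixCount (H i) g : ℚ) = m * (θ g).trace := by
  have hfin : Finite (G ⧸ θ.ker) := inferInstance
  obtain ⟨ι, hι, H, a, m, hm, h1, h2⟩ := RatChar.aux (QuotientGroup.mk' θ.ker)
    (QuotientGroup.mk'_surjective _) (QuotientGroup.lift θ.ker θ le_rfl)
  rw [QuotientGroup.ker_mk'] at h1
  refine ⟨ι, hι, H, a, m, hm, h1, ?_⟩
  intro g
  rw [h2 g]
  rfl

end Pool.BK
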