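import Pool.Agent.BKT.TwistDim

/-!
Relations between the dimensions of the Selmer groups of several twists.
-/

open scoped Pointwise NumberField
open Polynomial IsDedekindDomain

namespace Pool.BK

section Dim

variable {K : Type} [Field K] [NumberField K] {Ω : Type} [Field Ω] [Algebra K Ω] [IsAlgClosed Ω]
  [Algebra.IsAlgebraic K Ω]

namespace RelGen

/-- An additive function of permutation characters that extends to twists. -/
theorem dim_core (D : IntermediateField K Ω → ℤ)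
    (S : ∀ r : ℕ, ((Ω ≃ₐ[K] Ω) →* Matrix (Fin r) (Fin r) ℚ) → ℤ) (M₀ : IntermediateField K Ω)
    (hS : ∀ (r : ℕ) (θ : (Ω ≃ₐ[K] Ω) →* Matrix (Fin r) (Fin r) ℚ) (ι : Type) (_ : Fintype ι)
      (E : ι → IntermediateField K Ω) (_ : ∀ i, NumberField (E i)) (a : ι → ℤ) (m : ℕ), 0 < m →
      (∀ g : Ω ≃ₐ[K] Ω, ∑ i, (a i : ℚ) * (fixCount (E i).fixingSubgroup g : ℚ) =
        m * (θ g).trace) → M₀.fixingSubgroup ≤ θ.ker →
      (∀ i, M₀.fixingSubgroup ≤ (E i).fixingSubgroup) → ∑ i, a i * D (E i) = m * S r θ)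
    {r : ℕ} (θ : (Ω ≃ₐ[K] Ω) →* Matrix (Fin r) (Fin r) ℚ)
    {J : Type} [Fintype J] (r' : J → ℕ)
    (θ' : ∀ j, (Ω ≃ₐ[K] Ω) →* Matrix (Fin (r' j)) (Fin (r' j)) ℚ)
    {ι : Type} [Fintype ι] (E : ι → IntermediateField K Ω) [hE : ∀ i, NumberField (E i)]
    (a : ι → ℤ) (c : J → ℤ) (m : ℕ) (hm : 0 < m)
    (ha : ∀ g : Ω ≃ₐ[K] Ω, ∑ i, (a i : ℚ) * (fixCount (E i).fixingSubgroup g : ℚ) +
      ∑ j, (c j : ℚ) * (θ' j g).trace = m * (θ g).trace)
    (m' : J → ℕ) (hm' : ∀ j, 0 < m' j) (k : J → ℕ) (E' : ∀ j, Fin (k j) → IntermediateField K Ω)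
    (a' : ∀ j, Fin (k j) → ℤ) (hE' : ∀ j l, NumberField (E' j l))
    (ha' : ∀ (j : J) (g : Ω ≃ₐ[K] Ω),
      ∑ l, (a' j l : ℚ) * (fixCount (E' j l).fixingSubgroup g : ℚ) = m' j * (θ' j g).trace)
    (h1 : M₀.fixingSubgroup ≤ θ.ker) (h1' : ∀ j, M₀.fixingSubgroup ≤ (θ' j).ker)
    (h2 : ∀ i, M₀.fixingSubgroup ≤ (E i).fixingSubgroup)
    (h2' : ∀ j l, M₀.fixingSubgroup ≤ (E' j l).fixingSubgroup) :
    ∑ i, a i * D (E i) + ∑ j, c j * S (r' j) (θ' j) = m * S r θ := by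
  classical
  have hmi : ((∏ j, m' j : ℕ) : ℤ) ≠ 0 := by
    exact_mod_cast (Finset.prod_pos fun j _ => hm' j).ne'
  let M' : J → ℕ := fun j => ∏ i ∈ Finset.univ.erase j, m' i
  have hM' : ∀ j, m' j * M' j = ∏ j, m' j := fun j =>
    Finset.mul_prod_erase _ _ (Finset.mem_univ j)
  have key := hS r θ (ι ⊕ (Σ j, Fin (k j))) inferInstance
    (Sum.elim E (fun y : Σ j, Fin (k j) => E' y.1 y.2))
    (by
      rintro (i | ⟨j, l⟩)
      · exact hE i
      · exact hE' j l)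
    (Sum.elim (fun i => ((∏ j, m' j : ℕ) : ℤ) * a i) fun y => c y.1 * (M' y.1 : ℤ) * a' y.1 y.2)
    ((∏ j, m' j) * m) (Nat.mul_pos (Finset.prod_pos fun j _ => hm' j) hm) (by
      intro g
      rw [Fintype.sum_sum_type, Fintype.sum_sigma]
      simp only [Sum.elim_inl, Sum.elim_inr]
      have e1 : ∀ j, ∑ l, (((c j * (M' j : ℤ) * a' j l : ℤ)) : ℚ) *
          (fixCount (E' j l).fixingSubgroup g : ℚ) =
          ((∏ j, m' j : ℕ) : ℚ) * ((c j : ℚ) * (θ' j g).trace) := by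
        intro j
        have := ha' j g
        rw [← hM' j]
        have e2 : ∑ l, (((c j * (M' j : ℤ) * a' j l : ℤ)) : ℚ) *
            (fixCount (E' j l).fixingSubgroup g : ℚ) = (c j : ℚ) * (M' j : ℚ) *
              ∑ l, (a' j l : ℚ) * (fixCount (E' j l).fixingSubgroup g : ℚ) := by
          rw [Finset.mul_sum]
          refine Finset.sum_congr rfl fun l _ => ?_
          push_cast
          ring
        rw [e2, this]
        push_cast
        ring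
      rw [Finset.sum_congr rfl fun j _ => e1 j, ← Finset.mul_sum]
      have e3 : ∑ i, ((((∏ j, m' j : ℕ) : ℤ) * a i : ℤ) : ℚ) *
          (fixCount (E i).fixingSubgroup g : ℚ) = ((∏ j, m' j : ℕ) : ℚ) *
            ∑ i, (a i : ℚ) * (fixCount (E i).fixingSubgroup g : ℚ) := by
        rw [Finset.mul_sum]
        refine Finset.sum_congr rfl fun i _ => ?_
        push_cast
        ring
      rw [e3, ← mul_add, ha g]
      push_cast
      ring) h1 (by
      rintro (i | ⟨j, l⟩)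
      · exact h2 i
      · exact h2' j l)
  rw [Fintype.sum_sum_type, Fintype.sum_sigma] at key
  simp only [Sum.elim_inl, Sum.elim_inr] at key
  have h4 : ∀ j, ∑ l, a' j l * D (E' j l) = m' j * S (r' j) (θ' j) := fun j =>
    hS (r' j) (θ' j) (Fin (k j)) inferInstance (E' j) (hE' j) (a' j) (m' j) (hm' j) (ha' j)
      (h1' j) (h2' j)
  have e1 : ∀ j, ∑ l, c j * (M' j : ℤ) * a' j l * D (E' j l) =
      ((∏ j, m' j : ℕ) : ℤ) * (c j * S (r' j) (θ' j)) := by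
    intro j
    have e2 : ∑ l, c j * (M' j : ℤ) * a' j l * D (E' j l) = c j * (M' j : ℤ) *
        ∑ l, a' j l * D (E' j l) := by
      rw [Finset.mul_sum]
      exact Finset.sum_congr rfl fun l _ => by ring
    rw [e2, h4 j, ← hM' j]
    push_cast
    ring
  have e4 : ∑ i, ((∏ j, m' j : ℕ) : ℤ) * a i * D (E i) = ((∏ j, m' j : ℕ) : ℤ) *
      ∑ i, a i * D (E i) := by
    rw [Finset.mul_sum]
    exact Finset.sum_congr rfl fun i _ => by ring
  rw [Finset.sum_congr rfl fun j _ => e1 j, ← Finset.mul_sum, e4, ← mul_add] at key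
  refine mul_left_cancel₀ hmi ?_
  rw [key]
  push_cast
  ring

end RelGen

open RelGen in
theorem gen_dim {p : ℕ} [Fact p.Prime] {n : ℕ}
    (ρ : (Ω ≃ₐ[K] Ω) →* Matrix (Fin n) (Fin n) ℚ_[p]) (hρ : Continuous ρ)
    (B : PeriodData (Ω ≃ₐ[K] Ω) (𝓞 Ω) p)
    {r : ℕ} (θ : (Ω ≃ₐ[K] Ω) →* Matrix (Fin r) (Fin r) ℚ)
    {J : Type} [Fintype J] (r' : J → ℕ)
    (θ' : ∀ j, (Ω ≃ₐ[K] Ω) →* Matrix (Fin (r' j)) (Fin (r' j)) ℚ)
    {ι : Type} [Fintype ι] (E : ι → IntermediateField K Ω) [hE : ∀ i, NumberField (E i)]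
    (a : ι → ℤ) (c : J → ℤ) (m : ℕ) (hm : 0 < m)
    (ha : ∀ g : Ω ≃ₐ[K] Ω, ∑ i, (a i : ℚ) * (fixCount (E i).fixingSubgroup g : ℚ) +
      ∑ j, (c j : ℚ) * (θ' j g).trace = m * (θ g).trace)
    (m' : J → ℕ) (hm' : ∀ j, 0 < m' j) (k : J → ℕ) (E' : ∀ j, Fin (k j) → IntermediateField K Ω)
    (a' : ∀ j, Fin (k j) → ℤ) (hE' : ∀ j l, NumberField (E' j l))
    (ha' : ∀ (j : J) (g : Ω ≃ₐ[K] Ω),
      ∑ l, (a' j l : ℚ) * (fixCount (E' j l).fixingSubgroup g : ℚ) = m' j * (θ' j g).trace)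
    (M₀ : IntermediateField K Ω) [hM₀ : NumberField M₀] (h0 : M₀.fixingSubgroup.Normal)
    (h1 : M₀.fixingSubgroup ≤ θ.ker) (h1' : ∀ j, M₀.fixingSubgroup ≤ (θ' j).ker)
    (h2 : ∀ i, M₀.fixingSubgroup ≤ (E i).fixingSubgroup)
    (h2' : ∀ j l, M₀.fixingSubgroup ≤ (E' j l).fixingSubgroup)
    (hfin : Module.Finite ℚ_[p] (H1f (ρ.comp (resHom K M₀ Ω)) (B.res M₀))) :
    Module.Finite ℚ_[p] (H1f (tensorRep ρ θ) B) ∧
    ∑ i, a i * (Module.finrank ℚ_[p] (H1f (ρ.comp (resHom K (E i) Ω)) (B.res (E i))) : ℤ) +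
      ∑ j, c j * (Module.finrank ℚ_[p] (H1f (tensorRep ρ (θ' j)) B) : ℤ) =
        m * (Module.finrank ℚ_[p] (H1f (tensorRep ρ θ) B) : ℤ) ∧
    ∑ i, a i * (Pool.BK.h0 (ρ.comp (resHom K (E i) Ω)) : ℤ) +
      ∑ j, c j * (Pool.BK.h0 (tensorRep ρ (θ' j)) : ℤ) = m * (Pool.BK.h0 (tensorRep ρ θ) : ℤ) := by
  have key : ∀ (r : ℕ) (θ : (Ω ≃ₐ[K] Ω) →* Matrix (Fin r) (Fin r) ℚ) (ι : Type) (_ : Fintype ι)
      (E : ι → IntermediateField K Ω) (_ : ∀ i, NumberField (E i)) (a : ι → ℤ) (m : ℕ), 0 < m →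
      (∀ g : Ω ≃ₐ[K] Ω, ∑ i, (a i : ℚ) * (fixCount (E i).fixingSubgroup g : ℚ) =
        m * (θ g).trace) → M₀.fixingSubgroup ≤ θ.ker →
      (∀ i, M₀.fixingSubgroup ≤ (E i).fixingSubgroup) →
      Module.Finite ℚ_[p] (H1f (tensorRep ρ θ) B) ∧
      ∑ i, a i * (Module.finrank ℚ_[p] (H1f (ρ.comp (resHom K (E i) Ω)) (B.res (E i))) : ℤ) =
        m * (Module.finrank ℚ_[p] (H1f (tensorRep ρ θ) B) : ℤ) ∧
      ∑ i, a i * (Pool.BK.h0 (ρ.comp (resHom K (E i) Ω)) : ℤ) =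
        m * (Pool.BK.h0 (tensorRep ρ θ) : ℤ) := by
    intro r θ ι _ E hE a m hm ha h1 h2
    let E₂ : Option ι → IntermediateField K Ω := fun o => o.elim M₀ E
    have hE₂ : ∀ o, NumberField (E₂ o) := by
      rintro (_ | i)
      · exact hM₀
      · exact hE i
    have ha₂ : ∀ g : Ω ≃ₐ[K] Ω, ∑ o, ((o.elim 0 a : ℤ) : ℚ) *
        (fixCount (E₂ o).fixingSubgroup g : ℚ) = m * (θ g).trace := by
      intro g
      rw [Fintype.sum_option, ← ha g]
      simp [E₂]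
    have h2₂ : ∀ o, (E₂ none).fixingSubgroup ≤ (E₂ o).fixingSubgroup := by
      rintro (_ | i)
      · exact le_rfl
      · exact h2 i
    obtain ⟨g1, g2⟩ := twist_h1 ρ hρ B θ E₂ (fun o => o.elim 0 a) m hm ha₂ none h0 h1 h2₂ hfin
    have g3 := twist_h0 ρ θ E₂ (fun o => o.elim 0 a) m hm ha₂ none h0 h1 h2₂
    rw [Fintype.sum_option] at g2 g3
    refine ⟨g1, ?_, ?_⟩
    · rw [← g2]
      change _ = 0 * _ + _
      rw [zero_mul, zero_add]
      rfl
    · rw [← g3]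
      change _ = 0 * _ + _
      rw [zero_mul, zero_add]
      rfl
  refine ⟨?_, ?_, ?_⟩
  · -- finiteness: a relation for `θ` alone
    classical
    let M' : J → ℕ := fun j => ∏ i ∈ Finset.univ.erase j, m' i
    have hM' : ∀ j, m' j * M' j = ∏ j, m' j := fun j =>
      Finset.mul_prod_erase _ _ (Finset.mem_univ j)
    refine (key r θ (ι ⊕ (Σ j, Fin (k j))) inferInstance
      (Sum.elim E (fun y : Σ j, Fin (k j) => E' y.1 y.2))
      (by
        rintro (i | ⟨j, l⟩)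
        · exact hE i
        · exact hE' j l)
      (Sum.elim (fun i => ((∏ j, m' j : ℕ) : ℤ) * a i) fun y => c y.1 * (M' y.1 : ℤ) * a' y.1 y.2)
      ((∏ j, m' j) * m) (Nat.mul_pos (Finset.prod_pos fun j _ => hm' j) hm) (by
        intro g
        rw [Fintype.sum_sum_type, Fintype.sum_sigma]
        simp only [Sum.elim_inl, Sum.elim_inr]
        have e1 : ∀ j, ∑ l, (((c j * (M' j : ℤ) * a' j l : ℤ)) : ℚ) *
            (fixCount (E' j l).fixingSubgroup g : ℚ) =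
            ((∏ j, m' j : ℕ) : ℚ) * ((c j : ℚ) * (θ' j g).trace) := by
          intro j
          have := ha' j g
          rw [← hM' j]
          have e2 : ∑ l, (((c j * (M' j : ℤ) * a' j l : ℤ)) : ℚ) *
              (fixCount (E' j l).fixingSubgroup g : ℚ) = (c j : ℚ) * (M' j : ℚ) *
                ∑ l, (a' j l : ℚ) * (fixCount (E' j l).fixingSubgroup g : ℚ) := by
            rw [Finset.mul_sum]
            refine Finset.sum_congr rfl fun l _ => ?_
            push_cast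
            ring
          rw [e2, this]
          push_cast
          ring
        rw [Finset.sum_congr rfl fun j _ => e1 j, ← Finset.mul_sum]
        have e3 : ∑ i, ((((∏ j, m' j : ℕ) : ℤ) * a i : ℤ) : ℚ) *
            (fixCount (E i).fixingSubgroup g : ℚ) = ((∏ j, m' j : ℕ) : ℚ) *
              ∑ i, (a i : ℚ) * (fixCount (E i).fixingSubgroup g : ℚ) := by
          rw [Finset.mul_sum]
          refine Finset.sum_congr rfl fun i _ => ?_
          push_cast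
          ring
        rw [e3, ← mul_add, ha g]
        push_cast
        ring) h1 (by
        rintro (i | ⟨j, l⟩)
        · exact h2 i
        · exact h2' j l)).1
  · exact dim_core
      (fun L => (Module.finrank ℚ_[p] (H1f (ρ.comp (resHom K L Ω)) (B.res L)) : ℤ))
      (fun r θ => (Module.finrank ℚ_[p] (H1f (tensorRep ρ θ) B) : ℤ)) M₀
      (fun r θ ι _ E hE a m hm ha g1 g2 => (key r θ ι _ E hE a m hm ha g1 g2).2.1)
      θ r' θ' E a c m hm ha m' hm' k E' a' hE' ha' h1 h1' h2 h2'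
  · exact dim_core
      (fun L => (Pool.BK.h0 (ρ.comp (resHom K L Ω)) : ℤ))
      (fun r θ => (Pool.BK.h0 (tensorRep ρ θ) : ℤ)) M₀
      (fun r θ ι _ E hE a m hm ha g1 g2 => (key r θ ι _ E hE a m hm ha g1 g2).2.2)
      θ r' θ' E a c m hm ha m' hm' k E' a' hE' ha' h1 h1' h2 h2'

end Dim

end Pool.BK
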