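import Pool.Agent.BKT.RelTwist
import Pool.Agent.BKT.RatChar
import Pool.Agent.BK.Reduction

/-!
The order of vanishing formula for the twists by Artin representations, from the formula over the
finite extensions.
-/

open scoped Pointwise NumberField
open Polynomial IsDedekindDomain

namespace Pool.BK

section Main

variable (K : Type) [Field K] [NumberField K] (Ω : Type) [Field Ω] [Algebra K Ω] [IsAlgClosed Ω]
  [Algebra.IsAlgebraic K Ω]

/-- The twists whose character is a rational combination of permutation characters. -/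
theorem twist_general (V : LSystem (Ω ≃ₐ[K] Ω))
    (B : ∀ (p : ℕ) [Fact p.Prime], PeriodData (Ω ≃ₐ[K] Ω) (𝓞 Ω) p) {r : ℕ}
    (θ : (Ω ≃ₐ[K] Ω) →* Matrix (Fin r) (Fin r) ℚ) (hθ : IsOpen (θ.ker : Set (Ω ≃ₐ[K] Ω)))
    (n : ℕ) (h : ∀ (E : IntermediateField K Ω) [NumberField E],
      BKpow E Ω (V.res E) (fun p _ => (B p).res E) n)
    {ι : Type} [Fintype ι] (E : ι → IntermediateField K Ω) [hE : ∀ i, NumberField (E i)]
    (a : ι → ℤ) (m : ℕ) (hm : 0 < m)
    (ha : ∀ g : Ω ≃ₐ[K] Ω, ∑ i, (a i : ℚ) * (fixCount (E i).fixingSubgroup g : ℚ) =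
      m * (θ g).trace) :
    BKpow K Ω (V.twist θ hθ) B (m * n) := by
  obtain ⟨N, hN1, hN2, hN3, hN4⟩ := H1Relation.exists_normal E
  have hNo : IsOpen ((N ⊓ θ.ker : Subgroup (Ω ≃ₐ[K] Ω)) : Set (Ω ≃ₐ[K] Ω)) := by
    rw [Subgroup.coe_inf]
    exact hN3.inter hθ
  obtain ⟨hfd, hfix⟩ := Reduction.open_field (N ⊓ θ.ker) hNo
  have hnf : NumberField (IntermediateField.fixedField (N ⊓ θ.ker)) :=
    Reduction.numberField_of _
  let E' : Option ι → IntermediateField K Ω := fun o =>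
    o.elim (IntermediateField.fixedField (N ⊓ θ.ker)) E
  have hE' : ∀ i, NumberField (E' i) := by
    rintro (_ | i)
    · exact hnf
    · exact hE i
  refine rel_twist K Ω V B θ hθ E' (fun o => o.elim 0 a) m hm (fun g => ?_) none ?_ ?_ ?_ n
    (fun i => h (E' i))
  · rw [Fintype.sum_option, ← ha g]
    simp [E']
  · change (IntermediateField.fixedField (N ⊓ θ.ker)).fixingSubgroup.Normal
    rw [hfix]
    infer_instance
  · change (IntermediateField.fixedField (N ⊓ θ.ker)).fixingSubgroup ≤ _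
    rw [hfix]
    exact inf_le_right
  · rintro (_ | i)
    · exact le_rfl
    · change (IntermediateField.fixedField (N ⊓ θ.ker)).fixingSubgroup ≤ (E i).fixingSubgroup
      rw [hfix]
      exact inf_le_left.trans (hN4 i)

/-- The same with the relation as a proposition. -/
theorem twist_perm (V : LSystem (Ω ≃ₐ[K] Ω))
    (B : ∀ (p : ℕ) [Fact p.Prime], PeriodData (Ω ≃ₐ[K] Ω) (𝓞 Ω) p) {r : ℕ}
    (θ : (Ω ≃ₐ[K] Ω) →* Matrix (Fin r) (Fin r) ℚ) (hθ : IsOpen (θ.ker : Set (Ω ≃ₐ[K] Ω)))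
    (n : ℕ) (h : ∀ (E : IntermediateField K Ω) [NumberField E],
      BKpow E Ω (V.res E) (fun p _ => (B p).res E) n) (m : ℕ) (hm : 0 < m)
    (hp : IsPermMultiple θ m) : BKpow K Ω (V.twist θ hθ) B (m * n) := by
  obtain ⟨k, E, a, hE, ha⟩ := hp
  exact twist_general K Ω V B θ hθ n h E a m hm ha

/-- Artin's theorem. -/
theorem exists_permMultiple {r : ℕ} (θ : (Ω ≃ₐ[K] Ω) →* Matrix (Fin r) (Fin r) ℚ)
    (hθ : IsOpen (θ.ker : Set (Ω ≃ₐ[K] Ω))) : ∃ m : ℕ, 0 < m ∧ IsPermMultiple θ m := by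
  have hfi : θ.ker.FiniteIndex := LocalTrace.finiteIndex_of_open _ hθ
  obtain ⟨ι, _, H, a, m, hm, hH, ha⟩ := ratChar_relation θ
  have hHo : ∀ i, IsOpen (H i : Set (Ω ≃ₐ[K] Ω)) := fun i =>
    Subgroup.isOpen_mono (hH i).1 hθ
  let E : ι → IntermediateField K Ω := fun i => IntermediateField.fixedField (H i)
  have hfd : ∀ i, FiniteDimensional K (E i) := fun i => (Reduction.open_field (H i) (hHo i)).1
  have hnf : ∀ i, NumberField (E i) := fun i => Reduction.numberField_of (E i)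
  have hfix : ∀ i, (E i).fixingSubgroup = H i := fun i =>
    (Reduction.open_field (H i) (hHo i)).2
  let e := Fintype.equivFin ι
  refine ⟨m, hm, Fintype.card ι, fun i => E (e.symm i), fun i => a (e.symm i),
    fun i => hnf _, fun g => ?_⟩
  rw [← ha g]
  simp only [hfix]
  exact e.symm.sum_comp fun i => (a i : ℚ) * (fixCount (H i) g : ℚ)

end Main

end Pool.BK
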