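import Pool.Agent.BKT.RelTwistInd
import Pool.Agent.BKT.TwistAll

/-!
Local relations between the Euler polynomials of several twists and of induced representations.
-/

open scoped Pointwise NumberField
open Polynomial IsDedekindDomain

namespace Pool.BK

namespace RelGen

theorem psum_sub {F ι : Type} [Field F] [Fintype ι] (R : ι → F[X])
    (hR : ∀ i, (R i).coeff 0 = 1) (a : ι → ℤ) (k : ℕ) :
    psum (∏ i, R i ^ (a i).toNat) k - psum (∏ i, R i ^ (-(a i)).toNat) k =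
      ∑ i, (a i : F) * psum (R i) k := by
  have hneg := fun k => LocalTrace.psum_prod Finset.univ (fun i => (R i) ^ (-(a i)).toNat)
    (fun i _ => (LocalTrace.psum_pow _ (hR i) _ 0).1) k
  have hpos := fun k => LocalTrace.psum_prod Finset.univ (fun i => (R i) ^ (a i).toNat)
    (fun i _ => (LocalTrace.psum_pow _ (hR i) _ 0).1) k
  rw [(hpos k).2, (hneg k).2, ← Finset.sum_sub_distrib]
  refine Finset.sum_congr rfl fun i _ => ?_
  rw [(LocalTrace.psum_pow _ (hR i) _ k).2, (LocalTrace.psum_pow _ (hR i) _ k).2]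
  have h1 : ((a i).toNat : F) = (a i : F) + ((-(a i)).toNat : F) := by
    have h2 : ((a i).toNat : ℤ) = a i + ((-(a i)).toNat : ℤ) := by omega
    have h3 := congrArg (fun z : ℤ => (z : F)) h2
    push_cast at h3
    exact h3
  rw [h1]
  ring

theorem psum_of_rel {F ι : Type} [Field F] [Fintype ι] (P : F[X]) (R : ι → F[X])
    (hP : P.coeff 0 = 1) (hR : ∀ i, (R i).coeff 0 = 1) (a : ι → ℤ) (m : ℕ)
    (h : P ^ m * ∏ i, R i ^ (-(a i)).toNat = ∏ i, R i ^ (a i).toNat) (k : ℕ) :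
    (m : F) * psum P k = ∑ i, (a i : F) * psum (R i) k := by
  have hneg := (LocalTrace.psum_prod Finset.univ (fun i => (R i) ^ (-(a i)).toNat)
    (fun i _ => (LocalTrace.psum_pow _ (hR i) _ 0).1) k).1
  have hep := LocalTrace.psum_pow _ hP m k
  rw [← psum_sub R hR a k, ← h, psum_mul hep.1 hneg, hep.2]
  ring

theorem rel_of_psum {F ι : Type} [Field F] [CharZero F] [Fintype ι] (P : F[X]) (R : ι → F[X])
    (hP : P.coeff 0 = 1) (hR : ∀ i, (R i).coeff 0 = 1) (a : ι → ℤ) (m : ℕ)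
    (h : ∀ k : ℕ, 0 < k → (m : F) * psum P k = ∑ i, (a i : F) * psum (R i) k) :
    P ^ m * ∏ i, R i ^ (-(a i)).toNat = ∏ i, R i ^ (a i).toNat := by
  have hneg := fun k => (LocalTrace.psum_prod Finset.univ (fun i => (R i) ^ (-(a i)).toNat)
    (fun i _ => (LocalTrace.psum_pow _ (hR i) _ 0).1) k).1
  have hpos := fun k => (LocalTrace.psum_prod Finset.univ (fun i => (R i) ^ (a i).toNat)
    (fun i _ => (LocalTrace.psum_pow _ (hR i) _ 0).1) k).1
  have hep := fun k => LocalTrace.psum_pow _ hP m k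
  refine eq_of_psum ?_ (hpos 0) fun k hk => ?_
  · rw [mul_coeff_zero, (hep 0).1, hneg 0, one_mul]
  rw [psum_mul (hep 0).1 (hneg 0), (hep k).2, h k hk, ← psum_sub R hR a k]
  ring

end RelGen

section Local

variable {K : Type} [Field K] [NumberField K] {Ω : Type} [Field Ω] [Algebra K Ω] [IsAlgClosed Ω]
  [Algebra.IsAlgebraic K Ω]

open RelGen in
/-- The local relation for a twist, from a relation between its character, those of other twists
and permutation characters. -/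
theorem gen_local {F : Type} [Field F] [CharZero F] {n : ℕ}
    (ρ : (Ω ≃ₐ[K] Ω) →* Matrix (Fin n) (Fin n) F)
    {r : ℕ} (θ : (Ω ≃ₐ[K] Ω) →* Matrix (Fin r) (Fin r) ℚ) (hθ : IsOpen (θ.ker : Set (Ω ≃ₐ[K] Ω)))
    {J : Type} [Fintype J] (r' : J → ℕ)
    (θ' : ∀ j, (Ω ≃ₐ[K] Ω) →* Matrix (Fin (r' j)) (Fin (r' j)) ℚ)
    (hθ' : ∀ j, IsOpen ((θ' j).ker : Set (Ω ≃ₐ[K] Ω)))
    (v : HeightOneSpectrum (𝓞 K))
    (Q : Ideal (𝓞 Ω)) (hQ : Q.IsPrime) (hv : Q.under (𝓞 K) = v.asIdeal) (φ : Ω ≃ₐ[K] Ω)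
    (hφ : ∀ x : 𝓞 Ω, φ • x - x ^ v.asIdeal.absNorm ∈ Q) {ι : Type} [Fintype ι]
    (E : ι → IntermediateField K Ω) [∀ i, NumberField (E i)] (a : ι → ℤ) (c : J → ℤ) (m : ℕ)
    (ha : ∀ g : Ω ≃ₐ[K] Ω, ∑ i, (a i : ℚ) * (fixCount (E i).fixingSubgroup g : ℚ) +
      ∑ j, (c j : ℚ) * (θ' j g).trace = m * (θ g).trace)
    (P : ∀ i, HeightOneSpectrum (𝓞 (E i)) → F[X]) (hP : ∀ i, IsLocalFamily (E i) ρ v (P i))
    (R : ι ⊕ J → F[X]) (hR1 : ∀ i, R (Sum.inl i) = localProd K (E i) v (P i))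
    (hR2 : ∀ j, R (Sum.inr j) = eulerPoly (tensorRep ρ (θ' j)) Q φ) :
    (eulerPoly (tensorRep ρ θ) Q φ) ^ m * ∏ x, (R x) ^ (-(Sum.elim a c x)).toNat =
      ∏ x, (R x) ^ (Sum.elim a c x).toNat ∧ ∀ x, (R x).coeff 0 = 1 := by
  classical
  choose m' hm' k E' a' hE' ha' using fun j => exists_permMultiple K Ω (θ' j) (hθ' j)
  have hmi : (∏ j, (m' j : F)) ≠ 0 := Finset.prod_ne_zero_iff.2 fun j _ => by
    exact_mod_cast (hm' j).ne'
  let M' : J → ℕ := fun j => ∏ i ∈ Finset.univ.erase j, m' i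
  have hM' : ∀ j, m' j * M' j = ∏ j, m' j := fun j =>
    Finset.mul_prod_erase _ _ (Finset.mem_univ j)
  have hnf : ∀ x : ι ⊕ (Σ j, Fin (k j)),
      NumberField (Sum.elim E (fun y => E' y.1 y.2) x : IntermediateField K Ω) := by
    rintro (i | ⟨j, l⟩)
    · exact inferInstanceAs (NumberField (E i))
    · exact hE' j l
  have hnf' : ∀ j l, NumberField (E' j l) := hE'
  choose P' hP' using fun j l => exists_localFamily K Ω ρ (E' j l) v
  -- the families of polynomials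
  let PP : ∀ x : ι ⊕ (Σ j, Fin (k j)), HeightOneSpectrum
      (𝓞 (Sum.elim E (fun y => E' y.1 y.2) x : IntermediateField K Ω)) → F[X] := fun x =>
    match x with
    | Sum.inl i => P i
    | Sum.inr ⟨j, l⟩ => P' j l
  have hPP : ∀ x, IsLocalFamily
      (Sum.elim E (fun y => E' y.1 y.2) x : IntermediateField K Ω) ρ v (PP x) := by
    rintro (i | ⟨j, l⟩)
    · exact hP i
    · exact hP' j l
  obtain ⟨h1, h2⟩ := twist_local ρ θ hθ v Q hQ hv φ hφ
    (Sum.elim E (fun y : Σ j, Fin (k j) => E' y.1 y.2))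
    (Sum.elim (fun i => ((∏ j, m' j : ℕ) : ℤ) * a i) fun y => c y.1 * (M' y.1 : ℤ) * a' y.1 y.2)
    ((∏ j, m' j) * m) (by
      intro g
      rw [Fintype.sum_sum_type, Fintype.sum_sigma]
      simp only [Sum.elim_inl, Sum.elim_inr]
      have e1 : ∀ j, ∑ l, (((c j * (M' j : ℤ) * a' j l : ℤ)) : ℚ) *
          (fixCount (E' j l).fixingSubgroup g : ℚ) =
          ((∏ j, m' j : ℕ) : ℚ) * ((c j : ℚ) * (θ' j g).trace) := by
        intro j
        have := ha' j g
        rw [← hM' j]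
        have e2 : ∑ l, (((c j * (M' j : ℤ) * a' j l : ℤ)) : ℚ) *
            (fixCount (E' j l).fixingSubgroup g : ℚ) = (c j : ℚ) * (M' j : ℚ) *
              ∑ l, (a' j l : ℚ) * (fixCount (E' j l).fixingSubgroup g : ℚ) := by
          rw [Finset.mul_sum]
          refine Finset.sum_congr rfl fun l _ => ?_
          push_cast
          ring
        rw [e2, this]
        push_cast
        ring
      rw [Finset.sum_congr rfl fun j _ => e1 j, ← Finset.mul_sum]
      have e3 : ∑ i, ((((∏ j, m' j : ℕ) : ℤ) * a i : ℤ) : ℚ) *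
          (fixCount (E i).fixingSubgroup g : ℚ) = ((∏ j, m' j : ℕ) : ℚ) *
            ∑ i, (a i : ℚ) * (fixCount (E i).fixingSubgroup g : ℚ) := by
        rw [Finset.mul_sum]
        refine Finset.sum_congr rfl fun i _ => ?_
        push_cast
        ring
      rw [e3, ← mul_add, ha g]
      push_cast
      ring) PP hPP
  have he0 : ∀ {r : ℕ} (θ : (Ω ≃ₐ[K] Ω) →* Matrix (Fin r) (Fin r) ℚ),
      (eulerPoly (tensorRep ρ θ) Q φ).coeff 0 = 1 := fun θ => coeff_zero_reverse_charpoly _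
  have hR0 : ∀ x, (R x).coeff 0 = 1 := by
    rintro (i | j)
    · rw [hR1]
      exact h2 (Sum.inl i)
    · rw [hR2]
      exact he0 _
  refine ⟨rel_of_psum _ R (he0 θ) hR0 _ m fun s hs => ?_, hR0⟩
  have h3 := psum_of_rel _ _ (he0 θ) h2 _ _ h1 s
  rw [Fintype.sum_sum_type, Fintype.sum_sigma] at h3
  simp only [Sum.elim_inl, Sum.elim_inr] at h3
  rw [Fintype.sum_sum_type]
  simp only [Sum.elim_inl, Sum.elim_inr]
  have h4 : ∀ j, (m' j : F) * psum (R (Sum.inr j)) s =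
      ∑ l, (a' j l : F) * psum (localProd K (E' j l) v (P' j l)) s := by
    intro j
    obtain ⟨h5, h6⟩ := twist_local ρ (θ' j) (hθ' j) v Q hQ hv φ hφ (E' j) (a' j) (m' j) (ha' j)
      (P' j) (hP' j)
    rw [hR2]
    exact psum_of_rel _ _ (he0 (θ' j)) h6 _ _ h5 s
  have e1 : ∀ j, ∑ l, (((c j * (M' j : ℤ) * a' j l : ℤ)) : F) *
      psum (localProd K (E' j l) v (P' j l)) s =
        (∏ j, (m' j : F)) * ((c j : F) * psum (R (Sum.inr j)) s) := by
    intro j
    have e2 : ∑ l, (((c j * (M' j : ℤ) * a' j l : ℤ)) : F) *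
        psum (localProd K (E' j l) v (P' j l)) s = (c j : F) * (M' j : F) *
          ∑ l, (a' j l : F) * psum (localProd K (E' j l) v (P' j l)) s := by
      rw [Finset.mul_sum]
      refine Finset.sum_congr rfl fun l _ => ?_
      push_cast
      ring
    have e3 : (∏ j, (m' j : F)) = (m' j : F) * (M' j : F) := by
      have := congrArg (fun z : ℕ => (z : F)) (hM' j)
      push_cast at this
      exact this.symm
    rw [e2, ← h4 j, e3]
    ring
  have e4 : ∑ i, ((((∏ j, m' j : ℕ) : ℤ) * a i : ℤ) : F) *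
      psum (localProd K (E i) v (P i)) s = (∏ j, (m' j : F)) *
        ∑ i, (a i : F) * psum (R (Sum.inl i)) s := by
    rw [Finset.mul_sum]
    refine Finset.sum_congr rfl fun i _ => ?_
    rw [hR1]
    push_cast
    ring
  change _ = ∑ i, ((((∏ j, m' j : ℕ) : ℤ) * a i : ℤ) : F) *
      psum (localProd K (E i) v (P i)) s + ∑ j, ∑ l, (((c j * (M' j : ℤ) * a' j l : ℤ)) : F) *
      psum (localProd K (E' j l) v (P' j l)) s at h3
  rw [Finset.sum_congr rfl fun j _ => e1 j, ← Finset.mul_sum, e4, ← mul_add] at h3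
  refine mul_left_cancel₀ hmi ?_
  rw [← h3]
  push_cast
  ring

end Local

end Pool.BK
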