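import Pool.Agent.Helper67.BKT.Defs
import Pool.Agent.BK.ConjRep

/-!
# The Selmer group of a twist over a normal subgroup of the kernel (module TwistH1 of BKT)
-/

open scoped Pointwise NumberField
open Polynomial IsDedekindDomain

namespace Pool.BK

namespace TwistH1

section Comp

variable {Γ O : Type} [Group Γ] [CommRing O] [MulSemiringAction Γ O] {p : ℕ} [Fact p.Prime]
  {n r : ℕ}

/-- the `k`-th component of a function with values in the tensor product -/
def comp {X F : Type} (c : X → Fin (n * r) → F) (k : Fin r) : X → Fin n → F :=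
  fun x i => c x (finProdFinEquiv (i, k))

/-- the function with given components -/
def glue {X F : Type} (d : Fin r → X → Fin n → F) : X → Fin (n * r) → F :=
  fun x a => d (finProdFinEquiv.symm a).2 x (finProdFinEquiv.symm a).1

theorem comp_glue {X F : Type} (d : Fin r → X → Fin n → F) (k : Fin r) :
    comp (glue d) k = d k := by
  funext x i
  simp [comp, glue]

theorem eq_of_comp {X F : Type} {c d : X → Fin (n * r) → F} (h : ∀ k, comp c k = comp d k) :
    c = d := by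
  funext x a
  have := congrFun (congrFun (h (finProdFinEquiv.symm a).2) x) (finProdFinEquiv.symm a).1
  simp only [comp, Prod.mk.eta, Equiv.apply_symm_apply] at this
  exact this

/-- `σ` is a direct sum of `r` copies of `ρ` -/
def IsCopy {F : Type} [Field F] (ρ : Γ →* Matrix (Fin n) (Fin n) F)
    (σ : Γ →* Matrix (Fin (n * r)) (Fin (n * r)) F) : Prop :=
  ∀ x i j k l, σ x (finProdFinEquiv (i, k)) (finProdFinEquiv (j, l)) =
    if k = l then ρ x i j else 0

theorem mulVec_comp {F : Type} [Field F] {ρ : Γ →* Matrix (Fin n) (Fin n) F}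
    {σ : Γ →* Matrix (Fin (n * r)) (Fin (n * r)) F} (h : IsCopy ρ σ) (x : Γ)
    (v : Fin (n * r) → F) (i : Fin n) (k : Fin r) :
    (σ x).mulVec v (finProdFinEquiv (i, k)) =
      (ρ x).mulVec (fun j => v (finProdFinEquiv (j, k))) i := by
  rw [Matrix.mulVec, Matrix.mulVec, dotProduct, dotProduct,
    ← Equiv.sum_comp finProdFinEquiv, Fintype.sum_prod_type]
  refine Finset.sum_congr rfl fun j _ => ?_
  rw [Finset.sum_eq_single k]
  · rw [h, if_pos rfl]
  · intro l _ hl
    rw [h, if_neg (Ne.symm hl), zero_mul]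
  · intro hk
    exact absurd (Finset.mem_univ _) hk

theorem cocycle_comp {F : Type} [Field F] {ρ : Γ →* Matrix (Fin n) (Fin n) F}
    {σ : Γ →* Matrix (Fin (n * r)) (Fin (n * r)) F} (h : IsCopy ρ σ)
    (c : Γ → Fin (n * r) → F) : IsCocycle σ c ↔ ∀ k, IsCocycle ρ (comp c k) := by
  constructor
  · intro hc k x y
    funext i
    have := congrFun (hc x y) (finProdFinEquiv (i, k))
    rw [Pi.add_apply, mulVec_comp h] at this
    exact this
  · intro hc x y
    funext a
    have := congrFun (hc (finProdFinEquiv.symm a).2 x y) (finProdFinEquiv.symm a).1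
    have h2 := mulVec_comp h x (c y) (finProdFinEquiv.symm a).1 (finProdFinEquiv.symm a).2
    rw [Prod.mk.eta, Equiv.apply_symm_apply] at h2
    rw [Pi.add_apply, h2]
    simp only [comp, Pi.add_apply, Prod.mk.eta, Equiv.apply_symm_apply] at this
    exact this

theorem B1_comp {F : Type} [Field F] {ρ : Γ →* Matrix (Fin n) (Fin n) F}
    {σ : Γ →* Matrix (Fin (n * r)) (Fin (n * r)) F} (h : IsCopy ρ σ)
    (s : Set Γ) (c : Γ → Fin (n * r) → F) :
    (∃ v, ∀ g ∈ s, c g = (σ g).mulVec v - v) ↔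
      ∀ k, ∃ v, ∀ g ∈ s, comp c k g = (ρ g).mulVec v - v := by
  constructor
  · rintro ⟨v, hv⟩ k
    refine ⟨fun j => v (finProdFinEquiv (j, k)), fun g hg => ?_⟩
    funext i
    have := congrFun (hv g hg) (finProdFinEquiv (i, k))
    rw [Pi.sub_apply, mulVec_comp h] at this
    exact this
  · intro hc
    choose v hv using hc
    refine ⟨fun a => v (finProdFinEquiv.symm a).2 (finProdFinEquiv.symm a).1, fun g hg => ?_⟩
    funext a
    have := congrFun (hv (finProdFinEquiv.symm a).2 g hg) (finProdFinEquiv.symm a).1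
    have h2 := mulVec_comp h g
      (fun a => v (finProdFinEquiv.symm a).2 (finProdFinEquiv.symm a).1)
      (finProdFinEquiv.symm a).1 (finProdFinEquiv.symm a).2
    rw [Prod.mk.eta, Equiv.apply_symm_apply] at h2
    rw [Pi.sub_apply, h2]
    simp only [comp, Pi.sub_apply, Prod.mk.eta, Equiv.apply_symm_apply,
      Equiv.symm_apply_apply] at this ⊢
    exact this

theorem locCond_comp {ρ : Γ →* Matrix (Fin n) (Fin n) ℚ_[p]}
    {σ : Γ →* Matrix (Fin (n * r)) (Fin (n * r)) ℚ_[p]} (h : IsCopy ρ σ) (B : PeriodData Γ O p)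
    (c : Γ → Fin (n * r) → ℚ_[p]) (P : Ideal O) :
    LocCond σ B c P ↔ ∀ k, LocCond ρ B (comp c k) P := by
  have hsum : ∀ (g : Γ) (b : Fin (n * r) → B.M) (i : Fin n) (k : Fin r),
      ∑ a, σ g (finProdFinEquiv (i, k)) a • B.act g (b a) =
        ∑ j, ρ g i j • B.act g (b (finProdFinEquiv (j, k))) := by
    intro g b i k
    rw [← Equiv.sum_comp finProdFinEquiv, Fintype.sum_prod_type]
    refine Finset.sum_congr rfl fun j _ => ?_
    rw [Finset.sum_eq_single k]
    · rw [h, if_pos rfl]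
    · intro l _ hl
      rw [h, if_neg (Ne.symm hl), zero_smul]
    · intro hk
      exact absurd (Finset.mem_univ _) hk
  constructor
  · rintro ⟨h1, h2⟩ k
    refine ⟨fun hp => (B1_comp h _ c).1 (h1 hp) k, fun hp => ?_⟩
    obtain ⟨b, hb, hb'⟩ := h2 hp
    refine ⟨fun j => b (finProdFinEquiv (j, k)), fun i => hb _, fun g hg i => ?_⟩
    have := hb' g hg (finProdFinEquiv (i, k))
    rw [hsum] at this
    exact this
  · intro hc
    refine ⟨fun hp => (B1_comp h _ c).2 fun k => (hc k).1 hp, fun hp => ?_⟩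
    have h2 := fun k => (hc k).2 hp
    choose b hb hb' using h2
    refine ⟨fun a => b (finProdFinEquiv.symm a).2 (finProdFinEquiv.symm a).1,
      fun a => hb _ _, fun g hg a => ?_⟩
    have h3 := hb' (finProdFinEquiv.symm a).2 g hg (finProdFinEquiv.symm a).1
    have h4 := hsum g (fun a => b (finProdFinEquiv.symm a).2 (finProdFinEquiv.symm a).1)
      (finProdFinEquiv.symm a).1 (finProdFinEquiv.symm a).2
    rw [Prod.mk.eta, Equiv.apply_symm_apply] at h4
    rw [h4]
    simp only [comp, Prod.mk.eta, Equiv.apply_symm_apply, Equiv.symm_apply_apply] at h3 ⊢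
    exact h3

variable [TopologicalSpace Γ]

theorem mem_Z1f_comp {ρ : Γ →* Matrix (Fin n) (Fin n) ℚ_[p]}
    {σ : Γ →* Matrix (Fin (n * r)) (Fin (n * r)) ℚ_[p]} (h : IsCopy ρ σ) (B : PeriodData Γ O p)
    (c : Γ → Fin (n * r) → ℚ_[p]) : c ∈ Z1f σ B ↔ ∀ k, comp c k ∈ Z1f ρ B := by
  constructor
  · rintro ⟨h1, h2, h3⟩ k
    refine ⟨(cocycle_comp h c).1 h1 k, ?_, fun P hP hP0 => (locCond_comp h B c P).1 (h3 P hP hP0) k⟩
    exact continuous_pi fun i => (continuous_apply _).comp h2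
  · intro hc
    refine ⟨(cocycle_comp h c).2 fun k => (hc k).1, ?_,
      fun P hP hP0 => (locCond_comp h B c P).2 fun k => (hc k).2.2 P hP hP0⟩
    refine continuous_pi fun a => ?_
    have := (continuous_apply (finProdFinEquiv.symm a).1).comp (hc (finProdFinEquiv.symm a).2).2.1
    have h2 : (fun x => c x a) = (fun f : Fin n → ℚ_[p] => f (finProdFinEquiv.symm a).1) ∘
        comp c (finProdFinEquiv.symm a).2 := by
      funext x
      simp only [comp, Function.comp_apply, Prod.mk.eta, Equiv.apply_symm_apply]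
    rw [h2]
    exact this

/-- the component maps on cocycles -/
noncomputable def zc {ρ : Γ →* Matrix (Fin n) (Fin n) ℚ_[p]}
    {σ : Γ →* Matrix (Fin (n * r)) (Fin (n * r)) ℚ_[p]} (h : IsCopy ρ σ) (B : PeriodData Γ O p)
    (k : Fin r) : Z1f σ B →ₗ[ℚ_[p]] Z1f ρ B where
  toFun c := ⟨comp c k, (mem_Z1f_comp h B c).1 c.2 k⟩
  map_add' _ _ := rfl
  map_smul' _ _ := rfl

/-- the component maps on classes -/
noncomputable def hc {ρ : Γ →* Matrix (Fin n) (Fin n) ℚ_[p]}
    {σ : Γ →* Matrix (Fin (n * r)) (Fin (n * r)) ℚ_[p]} (h : IsCopy ρ σ) (B : PeriodData Γ O p)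
    (k : Fin r) : H1f σ B →ₗ[ℚ_[p]] H1f ρ B :=
  Submodule.mapQ _ _ (zc h B k) (by
    rintro c ⟨v, hv⟩
    obtain ⟨w, hw⟩ := (B1_comp h Set.univ (c : Γ → Fin (n * r) → ℚ_[p])).1
      ⟨v, fun g _ => hv g⟩ k
    exact ⟨w, fun g => hw g (Set.mem_univ _)⟩)

theorem hc_mk {ρ : Γ →* Matrix (Fin n) (Fin n) ℚ_[p]}
    {σ : Γ →* Matrix (Fin (n * r)) (Fin (n * r)) ℚ_[p]} (h : IsCopy ρ σ) (B : PeriodData Γ O p)
    (k : Fin r) (c : Z1f σ B) :
    hc h B k (Submodule.Quotient.mk c) = Submodule.Quotient.mk (zc h B k c) := rfl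

theorem hc_bij {ρ : Γ →* Matrix (Fin n) (Fin n) ℚ_[p]}
    {σ : Γ →* Matrix (Fin (n * r)) (Fin (n * r)) ℚ_[p]} (h : IsCopy ρ σ) (B : PeriodData Γ O p) :
    Function.Bijective (LinearMap.pi (hc h B)) := by
  constructor
  · rw [injective_iff_map_eq_zero]
    intro x hx
    obtain ⟨c, rfl⟩ := Submodule.Quotient.mk_surjective _ x
    rw [Submodule.Quotient.mk_eq_zero]
    have h1 : ∀ k, ∃ v, ∀ g ∈ Set.univ, comp (c : Γ → Fin (n * r) → ℚ_[p]) k g =
        (ρ g).mulVec v - v := by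
      intro k
      have h2 := congrFun hx k
      rw [LinearMap.pi_apply, hc_mk, Pi.zero_apply, Submodule.Quotient.mk_eq_zero] at h2
      obtain ⟨v, hv⟩ := h2
      exact ⟨v, fun g _ => hv g⟩
    obtain ⟨v, hv⟩ := (B1_comp h Set.univ _).2 h1
    exact ⟨v, fun g => hv g (Set.mem_univ _)⟩
  · intro y
    have h1 : ∀ k, ∃ d : Z1f ρ B, Submodule.Quotient.mk d = y k := fun k =>
      Submodule.Quotient.mk_surjective _ (y k)
    choose d hd using h1
    have h2 : glue (fun k => (d k : Γ → Fin n → ℚ_[p])) ∈ Z1f σ B := by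
      rw [mem_Z1f_comp h B]
      intro k
      rw [comp_glue]
      exact (d k).2
    refine ⟨Submodule.Quotient.mk ⟨_, h2⟩, ?_⟩
    funext k
    rw [LinearMap.pi_apply, hc_mk, ← hd k]
    congr 1
    exact Subtype.ext (comp_glue (fun k => (d k : Γ → Fin n → ℚ_[p])) k)

end Comp

theorem isCopy {G : Type} [Group G] {p : ℕ} [Fact p.Prime] {n r : ℕ}
    (ρ : G →* Matrix (Fin n) (Fin n) ℚ_[p]) (θ : G →* Matrix (Fin r) (Fin r) ℚ)
    (N : Subgroup G) (hN : N ≤ θ.ker) :
    IsCopy (ρ.comp N.subtype) ((tensorRep ρ θ).comp N.subtype) := by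
  intro x i j k l
  rw [MonoidHom.comp_apply, MonoidHom.comp_apply, tensorRep_apply]
  have h1 : θ (N.subtype x) = 1 := hN x.2
  rw [h1, Matrix.one_apply]
  split_ifs <;> simp

theorem comp_conjFun {G : Type} [Group G] {p : ℕ} [Fact p.Prime] {n r : ℕ}
    (ρ : G →* Matrix (Fin n) (Fin n) ℚ_[p]) (θ : G →* Matrix (Fin r) (Fin r) ℚ)
    (N : Subgroup G) [N.Normal] (g : G) (c : N → Fin (n * r) → ℚ_[p]) (k : Fin r) :
    comp (conjFun (tensorRep ρ θ) N g c) k =
      ∑ l, algebraMap ℚ ℚ_[p] (θ g k l) • conjFun ρ N g (comp c l) := by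
  funext x i
  rw [Finset.sum_apply, Finset.sum_apply]
  change (tensorRep ρ θ g).mulVec (c (ConjRep.cj N g x)) (finProdFinEquiv (i, k)) = _
  rw [Matrix.mulVec, dotProduct, ← Equiv.sum_comp finProdFinEquiv, Fintype.sum_prod_type,
    Finset.sum_comm]
  refine Finset.sum_congr rfl fun l _ => ?_
  change _ = algebraMap ℚ ℚ_[p] (θ g k l) *
    (ρ g).mulVec (comp c l (ConjRep.cj N g x)) i
  rw [Matrix.mulVec, dotProduct, Finset.mul_sum]
  refine Finset.sum_congr rfl fun j _ => ?_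
  rw [tensorRep_apply, comp]
  ring

end TwistH1

open TwistH1 in
theorem exists_twistEquiv {G O : Type} [Group G] [TopologicalSpace G] [IsTopologicalGroup G]
    [CommRing O] [MulSemiringAction G O] {p : ℕ} [Fact p.Prime] {n r : ℕ}
    (ρ : G →* Matrix (Fin n) (Fin n) ℚ_[p]) (θ : G →* Matrix (Fin r) (Fin r) ℚ)
    (B : PeriodData G O p) (N : Subgroup G) [N.Normal] (hN : N ≤ θ.ker)
    (τ : Representation ℚ_[p] G (H1f (ρ.comp N.subtype) (B.sub N)))
    (hτ : ∀ (g : G) (c : Z1f (ρ.comp N.subtype) (B.sub N)),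
        ∃ h : conjFun ρ N g c ∈ Z1f (ρ.comp N.subtype) (B.sub N),
          τ g (Submodule.Quotient.mk c) = Submodule.Quotient.mk ⟨_, h⟩)
    (τ' : Representation ℚ_[p] G (H1f ((tensorRep ρ θ).comp N.subtype) (B.sub N)))
    (hτ' : ∀ (g : G) (c : Z1f ((tensorRep ρ θ).comp N.subtype) (B.sub N)),
        ∃ h : conjFun (tensorRep ρ θ) N g c ∈ Z1f ((tensorRep ρ θ).comp N.subtype) (B.sub N),
          τ' g (Submodule.Quotient.mk c) = Submodule.Quotient.mk ⟨_, h⟩) :
    ∃ e : H1f ((tensorRep ρ θ).comp N.subtype) (B.sub N) ≃ₗ[ℚ_[p]]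
        (Fin r → H1f (ρ.comp N.subtype) (B.sub N)),
      ∀ g x k, e (τ' g x) k = ∑ l, algebraMap ℚ ℚ_[p] (θ g k l) • τ g (e x l) := by
  have h := isCopy ρ θ N hN
  choose hA hB using hτ
  refine ⟨LinearEquiv.ofBijective _ (hc_bij h (B.sub N)), fun g x k => ?_⟩
  obtain ⟨c, rfl⟩ := Submodule.Quotient.mk_surjective _ x
  obtain ⟨h1, h2⟩ := hτ' g c
  rw [h2, LinearEquiv.ofBijective_apply, LinearMap.pi_apply, hc_mk]
  have h3 : ∀ l, algebraMap ℚ ℚ_[p] (θ g k l) •
      τ g ((LinearEquiv.ofBijective _ (hc_bij h (B.sub N))) (Submodule.Quotient.mk c) l) =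
      Submodule.Quotient.mk (algebraMap ℚ ℚ_[p] (θ g k l) •
        (⟨_, hA g (zc h (B.sub N) l c)⟩ : Z1f (ρ.comp N.subtype) (B.sub N))) := by
    intro l
    rw [LinearEquiv.ofBijective_apply, LinearMap.pi_apply, hc_mk, Submodule.Quotient.mk_smul, hB]
  rw [Finset.sum_congr rfl fun l _ => h3 l]
  have h4 : ∀ f : Fin r → Z1f (ρ.comp N.subtype) (B.sub N),
      ∑ l, (Submodule.Quotient.mk (f l) : H1f (ρ.comp N.subtype) (B.sub N)) =
        Submodule.Quotient.mk (∑ l, f l) := by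
    intro f
    exact (map_sum (Submodule.mkQ _) f Finset.univ).symm
  rw [h4]
  congr 1
  apply Subtype.ext
  rw [Submodule.coe_sum]
  exact comp_conjFun ρ θ N g c k

end Pool.BK
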