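import Pool.Agent.Helper67.BKT.Defs
import Pool.Agent.BK.Trace

set_option autoImplicit false

open scoped Pointwise NumberField
open Polynomial IsDedekindDomain

namespace Pool.BK

theorem trace_kron {F W : Type} [Field F] [AddCommGroup W] [Module F W] [Module.Finite F W]
    {r : ℕ} (A : Matrix (Fin r) (Fin r) F) (T : Module.End F W) (S : Module.End F (Fin r → W))
    (hS : ∀ w k, S w k = ∑ l, A k l • T (w l)) :
    LinearMap.trace F _ S = LinearMap.trace F _ T * A.trace := by
  classical
  have h1 : S = ∑ k, ∑ l, A k l • (LinearMap.single F (fun _ : Fin r => W) k ∘ₗ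
      (T ∘ₗ (LinearMap.proj l : (Fin r → W) →ₗ[F] W))) := by
    apply LinearMap.ext
    intro w
    funext k'
    rw [hS, LinearMap.sum_apply, Finset.sum_apply]
    simp only [LinearMap.sum_apply, Finset.sum_apply, LinearMap.smul_apply, LinearMap.comp_apply,
      Pi.smul_apply, LinearMap.proj_apply, LinearMap.coe_single]
    symm
    rw [Finset.sum_eq_single k']
    · simp
    · intro k _ hk
      refine Finset.sum_eq_zero fun l _ => ?_
      rw [Pi.single_eq_of_ne hk.symm, smul_zero]
    · intro h; exact absurd (Finset.mem_univ _) h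
  have h2 : ∀ k l : Fin r, LinearMap.trace F _ (LinearMap.single F (fun _ : Fin r => W) k ∘ₗ
      (T ∘ₗ (LinearMap.proj l : (Fin r → W) →ₗ[F] W))) =
      if k = l then LinearMap.trace F _ T else 0 := by
    intro k l
    rw [LinearMap.trace_comp_comm', LinearMap.comp_assoc]
    by_cases h : k = l
    · subst h
      rw [if_pos rfl, LinearMap.proj_comp_single_same, LinearMap.comp_id]
    · rw [if_neg h, LinearMap.proj_comp_single_ne F (fun _ : Fin r => W) l k (Ne.symm h),
        LinearMap.comp_zero, map_zero]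
  rw [h1, map_sum]
  simp only [map_sum, map_smul, h2, smul_eq_mul, mul_ite, mul_zero, Finset.sum_ite_eq,
    Finset.mem_univ, if_true]
  rw [Matrix.trace, Finset.mul_sum]
  refine Finset.sum_congr rfl fun k _ => ?_
  rw [Matrix.diag_apply, mul_comm]

namespace TwistTrace

variable {G F : Type} [Group G] [Field F] [CharZero F] {n r : ℕ}

/-- The components of a vector of the tensor product. -/
def comp (F : Type) [Field F] (n r : ℕ) : (Fin (n * r) → F) ≃ₗ[F] (Fin r → Fin n → F) where
  toFun v k i := v (finProdFinEquiv (i, k))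
  map_add' _ _ := rfl
  map_smul' _ _ := rfl
  invFun w x := w (finProdFinEquiv.symm x).2 (finProdFinEquiv.symm x).1
  left_inv v := by
    funext x
    exact congrArg v (finProdFinEquiv.apply_symm_apply x)
  right_inv w := by
    funext k i
    simp

omit [CharZero F] in
theorem comp_apply (v : Fin (n * r) → F) (k : Fin r) (i : Fin n) :
    comp F n r v k i = v (finProdFinEquiv (i, k)) := rfl

theorem comp_tensor (ρ : G →* Matrix (Fin n) (Fin n) F) (θ : G →* Matrix (Fin r) (Fin r) ℚ)
    (g : G) (v : Fin (n * r) → F) (k : Fin r) :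
    comp F n r (Matrix.toLin' (tensorRep ρ θ g) v) k =
      ∑ l, algebraMap ℚ F (θ g k l) • Matrix.toLin' (ρ g) (comp F n r v l) := by
  funext i
  rw [comp_apply, Matrix.toLin'_apply, Matrix.mulVec, dotProduct,
    ← Equiv.sum_comp finProdFinEquiv, Fintype.sum_prod_type_right, Finset.sum_apply]
  refine Finset.sum_congr rfl fun l _ => ?_
  rw [Pi.smul_apply, Matrix.toLin'_apply, Matrix.mulVec, dotProduct, smul_eq_mul, Finset.mul_sum]
  refine Finset.sum_congr rfl fun j _ => ?_
  rw [tensorRep_apply, comp_apply]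
  ring

theorem comp_ker (ρ : G →* Matrix (Fin n) (Fin n) F) (θ : G →* Matrix (Fin r) (Fin r) ℚ)
    {a : G} (ha : a ∈ θ.ker) (v : Fin (n * r) → F) (k : Fin r) :
    comp F n r (Matrix.toLin' (tensorRep ρ θ a) v) k = Matrix.toLin' (ρ a) (comp F n r v k) := by
  rw [comp_tensor, MonoidHom.mem_ker.1 ha, Finset.sum_eq_single k]
  · rw [Matrix.one_apply_eq, map_one, one_smul]
  · intro l _ hl
    rw [Matrix.one_apply_ne hl.symm, map_zero, zero_smul]
  · intro h; exact absurd (Finset.mem_univ _) h

theorem mem_iff (ρ : G →* Matrix (Fin n) (Fin n) F) (θ : G →* Matrix (Fin r) (Fin r) ℚ)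
    {J : Subgroup G} (hJ : J ≤ θ.ker) (v : Fin (n * r) → F) :
    v ∈ invSub (tensorRep ρ θ) J ↔ ∀ k, comp F n r v k ∈ invSub ρ J := by
  simp only [Trace.mem_invSub]
  constructor
  · intro h k a ha
    rw [← comp_ker ρ θ (hJ ha), h a ha]
  · intro h a ha
    apply (comp F n r).injective
    funext k
    rw [comp_ker ρ θ (hJ ha), h k a ha]

/-- The invariants of the tensor product. -/
def equiv (ρ : G →* Matrix (Fin n) (Fin n) F) (θ : G →* Matrix (Fin r) (Fin r) ℚ)
    {J : Subgroup G} (hJ : J ≤ θ.ker) :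
    invSub (tensorRep ρ θ) J ≃ₗ[F] (Fin r → invSub ρ J) where
  toFun v k := ⟨comp F n r v k, (mem_iff ρ θ hJ v).1 v.2 k⟩
  map_add' v w := by
    funext k
    apply Subtype.ext
    rfl
  map_smul' c v := by
    funext k
    apply Subtype.ext
    rfl
  invFun w := ⟨(comp F n r).symm fun k => (w k : Fin n → F), by
    rw [mem_iff ρ θ hJ]
    intro k
    rw [LinearEquiv.apply_symm_apply]
    exact (w k).2⟩
  left_inv v := by
    apply Subtype.ext
    exact (comp F n r).symm_apply_apply (v : Fin (n * r) → F)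
  right_inv w := by
    funext k
    apply Subtype.ext
    change comp F n r ((comp F n r).symm fun k => (w k : Fin n → F)) k = _
    rw [LinearEquiv.apply_symm_apply]

end TwistTrace

open TwistTrace in
theorem trace_endOn_tensor {G F : Type} [Group G] [Field F] [CharZero F] {n r : ℕ}
    (ρ : G →* Matrix (Fin n) (Fin n) F) (θ : G →* Matrix (Fin r) (Fin r) ℚ) (J : Subgroup G)
    (hJ : J ≤ θ.ker) (g : G) (hg : ∀ a ∈ J, g⁻¹ * a * g ∈ J) :
    LinearMap.trace F _ (endOn (tensorRep ρ θ) J g) =
      LinearMap.trace F _ (endOn ρ J g) * algebraMap ℚ F (θ g).trace := by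
  let e := TwistTrace.equiv ρ θ hJ
  have h1 := LinearMap.trace_conj' (R := F) (M := invSub (tensorRep ρ θ) J)
    (N := Fin r → invSub ρ J) (endOn (tensorRep ρ θ) J g) e
  rw [← h1, trace_kron ((θ g).map (algebraMap ℚ F)) (endOn ρ J g)]
  · congr 1
    simp [Matrix.trace, map_sum]
  · intro w k
    apply Subtype.ext
    have h2 : ((e.conj (endOn (tensorRep ρ θ) J g) w k : invSub ρ J) : Fin n → F) =
        comp F n r ((endOn (tensorRep ρ θ) J g (e.symm w) : invSub (tensorRep ρ θ) J) :
          Fin (n * r) → F) k := rfl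
    rw [h2, Trace.endOn_coe (tensorRep ρ θ) hg, comp_tensor, Submodule.coe_sum]
    refine Finset.sum_congr rfl fun l _ => ?_
    rw [Submodule.coe_smul, Trace.endOn_coe ρ hg, Matrix.map_apply]
    congr 2
    have h3 : (e (e.symm w)) l = w l := by rw [LinearEquiv.apply_symm_apply]
    exact congrArg Subtype.val h3

end Pool.BK
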