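import Pool.Agent.Helper67.BKT.Defs
import Pool.Agent.BK.H1Relation
import Pool.Agent.BKT.TwistTrace
import Pool.Agent.BKT.TwistH1

/-!
# Dimensions of the Selmer group and of the invariants of a twist (module TwistDim of BKT)
-/

open scoped Pointwise NumberField
open Polynomial IsDedekindDomain

namespace Pool.BK

namespace TwistDim

open Module Fixed H1Relation

/-- the abstract relation: characters of finite quotients -/
theorem sum_finrank_twist {G k W W' : Type} [Group G] [Field k] [CharZero k] [AddCommGroup W]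
    [Module k W] [FiniteDimensional k W] [AddCommGroup W'] [Module k W']
    [FiniteDimensional k W'] (τ : Representation k G W) (τ' : Representation k G W')
    (N : Subgroup G) [N.Normal] [N.FiniteIndex]
    (hτ : ∀ g ∈ N, τ g = 1) (hτ' : ∀ g ∈ N, τ' g = 1) (t : G → ℚ)
    (htr : ∀ g, LinearMap.trace k W' (τ' g) = LinearMap.trace k W (τ g) * algebraMap ℚ k (t g))
    {ι : Type} [Fintype ι] (H : ι → Subgroup G) (hN : ∀ i, N ≤ H i)
    (a : ι → ℤ) (m : ℕ) (ha : ∀ g, ∑ i, (a i : ℚ) * (fixCount (H i) g : ℚ) = m * t g) :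
    ∑ i, a i * (Module.finrank k (fixedSub τ (H i)) : ℤ) =
      m * (Module.finrank k (fixedSub τ' ⊤) : ℤ) := by
  classical
  have : Fintype (G ⧸ N) := Fintype.ofFinite _
  let σ : Representation k (G ⧸ N) W := QuotientGroup.lift N τ (fun g hg => hτ g hg)
  let σ' : Representation k (G ⧸ N) W' := QuotientGroup.lift N τ' (fun g hg => hτ' g hg)
  have hσ : ∀ g, σ (QuotientGroup.mk' N g) = τ g := fun g => rfl
  have hσ' : ∀ g, σ' (QuotientGroup.mk' N g) = τ' g := fun g => rfl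
  have hfix : ∀ K : Subgroup G, fixedSub σ (K.map (QuotientGroup.mk' N)) = fixedSub τ K := by
    intro K
    ext v
    constructor
    · intro h g hg
      exact h _ (Subgroup.mem_map_of_mem _ hg)
    · intro h x hx
      obtain ⟨g, hg, rfl⟩ := Subgroup.mem_map.1 hx
      exact h g hg
  have hfix' : ∀ K : Subgroup G, fixedSub σ' (K.map (QuotientGroup.mk' N)) = fixedSub τ' K := by
    intro K
    ext v
    constructor
    · intro h g hg
      exact h _ (Subgroup.mem_map_of_mem _ hg)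
    · intro h x hx
      obtain ⟨g, hg, rfl⟩ := Subgroup.mem_map.1 hx
      exact h g hg
  have hcard : (Nat.card (G ⧸ N) : k) ≠ 0 := by
    exact_mod_cast Nat.card_pos.ne'
  have key : ∀ K : Subgroup G, N ≤ K → (Nat.card (G ⧸ N) : k) *
      (finrank k (fixedSub τ K) : k) = ∑ γ : G ⧸ N, LinearMap.trace k W (σ γ) *
        (fixCount (K.map (QuotientGroup.mk' N)) γ : k) := by
    intro K hK
    rw [← hfix K]
    exact card_mul_finrank σ _
  have key' : (Nat.card (G ⧸ N) : k) *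
      (finrank k (fixedSub τ' ⊤) : k) = ∑ γ : G ⧸ N, LinearMap.trace k W' (σ' γ) *
        (fixCount ((⊤ : Subgroup G).map (QuotientGroup.mk' N)) γ : k) := by
    rw [← hfix' ⊤]
    exact card_mul_finrank σ' _
  have h1 : (Nat.card (G ⧸ N) : k) *
      ((∑ i, a i * (Module.finrank k (fixedSub τ (H i)) : ℤ) : ℤ) : k) =
      (Nat.card (G ⧸ N) : k) * ((m * (Module.finrank k (fixedSub τ' ⊤) : ℤ) : ℤ) : k) := by
    push_cast
    rw [Finset.mul_sum]
    have h2 : ∀ i, (Nat.card (G ⧸ N) : k) *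
        ((a i : k) * (finrank k (fixedSub τ (H i)) : k)) =
        ∑ γ : G ⧸ N, LinearMap.trace k W (σ γ) *
          ((a i : k) * (fixCount ((H i).map (QuotientGroup.mk' N)) γ : k)) := by
      intro i
      rw [mul_left_comm, key _ (hN i), Finset.mul_sum]
      refine Finset.sum_congr rfl fun γ _ => ?_
      ring
    rw [Finset.sum_congr rfl fun i _ => h2 i, Finset.sum_comm, mul_left_comm, key',
      Finset.mul_sum]
    refine Finset.sum_congr rfl fun γ _ => ?_
    obtain ⟨g, rfl⟩ := QuotientGroup.mk'_surjective N γ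
    rw [← Finset.mul_sum, fixCount_map N ⊤ le_top, fixCount_top, Nat.cast_one, mul_one, hσ, hσ',
      htr g, mul_left_comm]
    congr 1
    have h3 := congrArg (algebraMap ℚ k) (ha g)
    rw [map_sum, map_mul, map_natCast] at h3
    rw [← h3]
    refine Finset.sum_congr rfl fun i _ => ?_
    rw [fixCount_map N (H i) (hN i), map_mul, map_intCast, map_natCast]
  exact_mod_cast mul_left_cancel₀ hcard h1

/-- continuity of a twist -/
theorem continuous_tensorRep {G : Type} [Group G] [TopologicalSpace G] [IsTopologicalGroup G]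
    {p : ℕ} [Fact p.Prime] {n r : ℕ} (ρ : G →* Matrix (Fin n) (Fin n) ℚ_[p]) (hρ : Continuous ρ)
    (θ : G →* Matrix (Fin r) (Fin r) ℚ) (hθ : IsOpen (θ.ker : Set G)) :
    Continuous (tensorRep ρ θ) := by
  have h1 : Continuous fun g => (θ g).map (algebraMap ℚ ℚ_[p]) := by
    refine continuous_iff_continuousAt.2 fun g => ?_
    have h2 : (fun x => (θ x).map (algebraMap ℚ ℚ_[p])) =ᶠ[nhds g]
        fun _ => (θ g).map (algebraMap ℚ ℚ_[p]) := by
      have h3 : {x | g⁻¹ * x ∈ (θ.ker : Set G)} ∈ nhds g := by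
        refine (hθ.preimage (continuous_const_mul g⁻¹)).mem_nhds ?_
        change g⁻¹ * g ∈ (θ.ker : Set G)
        rw [inv_mul_cancel]
        exact one_mem _
      filter_upwards [h3] with x hx
      have h4 : θ (g⁻¹ * x) = 1 := hx
      have h5 : θ x = θ g := by
        have : x = g * (g⁻¹ * x) := by group
        rw [this, map_mul, h4, mul_one]
      rw [h5]
    exact (continuousAt_congr h2).2 continuousAt_const
  have h2 : Continuous fun g => tensorRep ρ θ g := by
    refine continuous_matrix fun i j => ?_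
    have h3 : ∀ g, tensorRep ρ θ g i j =
        ρ g (finProdFinEquiv.symm i).1 (finProdFinEquiv.symm j).1 *
        (θ g).map (algebraMap ℚ ℚ_[p]) (finProdFinEquiv.symm i).2 (finProdFinEquiv.symm j).2 := by
      intro g
      have h4 := tensorRep_apply ρ θ g (finProdFinEquiv.symm i).1
        (finProdFinEquiv.symm j).1 (finProdFinEquiv.symm i).2 (finProdFinEquiv.symm j).2
      rw [Prod.mk.eta, Prod.mk.eta, Equiv.apply_symm_apply, Equiv.apply_symm_apply] at h4
      rw [h4]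
      rfl
    simp only [h3]
    exact (hρ.matrix_elem _ _).mul (h1.matrix_elem _ _)
  exact h2

/-- the representation on the invariants through `endOn` -/
theorem repInv_eq_endOn {G F : Type} [Group G] [Field F] {n : ℕ}
    (ρ : G →* Matrix (Fin n) (Fin n) F) (N : Subgroup G) [N.Normal] (g : G) :
    repInv ρ N g = endOn ρ N g := by
  unfold endOn
  rw [dif_pos (mulVec_mem ρ N g)]
  rfl

end TwistDim

section Dim

variable {K : Type} [Field K] [NumberField K] {Ω : Type} [Field Ω] [Algebra K Ω] [IsAlgClosed Ω]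
  [Algebra.IsAlgebraic K Ω] {p : ℕ} [Fact p.Prime] {n r : ℕ}

open TwistDim H1Relation

theorem twist_h1 (ρ : (Ω ≃ₐ[K] Ω) →* Matrix (Fin n) (Fin n) ℚ_[p]) (hρ : Continuous ρ)
    (B : PeriodData (Ω ≃ₐ[K] Ω) (𝓞 Ω) p)
    (θ : (Ω ≃ₐ[K] Ω) →* Matrix (Fin r) (Fin r) ℚ) {ι : Type} [Fintype ι]
    (E : ι → IntermediateField K Ω) [∀ i, NumberField (E i)] (a : ι → ℤ) (m : ℕ) (hm : 0 < m)
    (ha : ∀ g : Ω ≃ₐ[K] Ω, ∑ i, (a i : ℚ) * (fixCount (E i).fixingSubgroup g : ℚ) =
      m * (θ g).trace)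
    (i₀ : ι) (h0 : (E i₀).fixingSubgroup.Normal) (h1 : (E i₀).fixingSubgroup ≤ θ.ker)
    (h2 : ∀ i, (E i₀).fixingSubgroup ≤ (E i).fixingSubgroup)
    (hfin : Module.Finite ℚ_[p] (H1f (ρ.comp (resHom K (E i₀) Ω)) (B.res (E i₀)))) :
    Module.Finite ℚ_[p] (H1f (tensorRep ρ θ) B) ∧
    ∑ i, a i * (Module.finrank ℚ_[p] (H1f (ρ.comp (resHom K (E i) Ω)) (B.res (E i))) : ℤ) =
      m * (Module.finrank ℚ_[p] (H1f (tensorRep ρ θ) B) : ℤ) := by
  have hgal : IsGalois K Ω := isGalois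
  have hfd : FiniteDimensional K (E i₀) := finite_of_numberField (E i₀)
  have hopen : IsOpen ((E i₀).fixingSubgroup : Set (Ω ≃ₐ[K] Ω)) :=
    (E i₀).fixingSubgroup_isOpen
  have hc : CompactSpace (Ω ≃ₐ[K] Ω) := inferInstance
  have hq : Finite ((Ω ≃ₐ[K] Ω) ⧸ (E i₀).fixingSubgroup) :=
    Subgroup.quotient_finite_of_isOpen _ hopen
  have hFI : (E i₀).fixingSubgroup.FiniteIndex := Subgroup.finiteIndex_of_finite_quotient
  have hθ : IsOpen (θ.ker : Set (Ω ≃ₐ[K] Ω)) := Subgroup.isOpen_mono h1 hopen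
  have hρ' : Continuous (tensorRep ρ θ) := continuous_tensorRep ρ hρ θ hθ
  obtain ⟨τ, hτ, hτN⟩ := exists_conjRep ρ hρ B (E i₀).fixingSubgroup
  obtain ⟨τ', hτ', hτN'⟩ := exists_conjRep (tensorRep ρ θ) hρ' B (E i₀).fixingSubgroup
  have hE : ∀ i, Nonempty (H1f (ρ.comp (resHom K (E i) Ω)) (B.res (E i)) ≃ₗ[ℚ_[p]]
        fixedSub τ (E i).fixingSubgroup) := by
    intro i
    have := descent ρ hρ B (E i₀).fixingSubgroup hopen τ hτ (Ω ≃ₐ[E i] Ω) (resHom K (E i) Ω)
      (fun _ _ => rfl)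
      (injective_resHom (E i)) (isOpenEmbedding_resHom (E i))
      (by rw [range_resHom]; exact h2 i)
    rw [range_resHom] at this
    exact this
  have hT : Nonempty (H1f (tensorRep ρ θ) B ≃ₗ[ℚ_[p]] fixedSub τ' ⊤) := by
    have := descent (tensorRep ρ θ) hρ' B (E i₀).fixingSubgroup hopen τ' hτ' (Ω ≃ₐ[K] Ω)
      (MonoidHom.id _) (fun _ _ => rfl)
      Function.injective_id Topology.IsOpenEmbedding.id
      (by rw [MonoidHom.range_eq_top.2 Function.surjective_id]; exact le_top)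
    rw [MonoidHom.range_eq_top.2 Function.surjective_id] at this
    exact this
  -- finiteness of the two big spaces
  have hfin1 : Module.Finite ℚ_[p] (fixedSub τ (E i₀).fixingSubgroup) :=
    Module.Finite.equiv (hE i₀).some
  have htop : fixedSub τ (E i₀).fixingSubgroup = ⊤ := by
    refine eq_top_iff.2 fun w _ g hg => ?_
    rw [hτN g hg]
    rfl
  have hW : Module.Finite ℚ_[p]
      (H1f (ρ.comp (E i₀).fixingSubgroup.subtype) (B.sub (E i₀).fixingSubgroup)) := by
    rw [htop] at hfin1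
    exact Module.Finite.equiv (Submodule.topEquiv (R := ℚ_[p]))
  obtain ⟨e, he⟩ := exists_twistEquiv ρ θ B (E i₀).fixingSubgroup h1 τ hτ τ' hτ'
  have hW' : Module.Finite ℚ_[p]
      (H1f ((tensorRep ρ θ).comp (E i₀).fixingSubgroup.subtype)
        (B.sub (E i₀).fixingSubgroup)) := Module.Finite.equiv e.symm
  have htr : ∀ g, LinearMap.trace ℚ_[p] _ (τ' g) =
      LinearMap.trace ℚ_[p] _ (τ g) * algebraMap ℚ ℚ_[p] (θ g).trace := by
    intro g
    rw [← LinearMap.trace_conj' (τ' g) e]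
    have h3 : algebraMap ℚ ℚ_[p] (θ g).trace = ((θ g).map (algebraMap ℚ ℚ_[p])).trace := by
      rw [Matrix.trace, Matrix.trace, map_sum]
      rfl
    rw [h3]
    refine trace_kron _ (τ g) _ fun w k => ?_
    rw [LinearEquiv.conj_apply_apply, he g (e.symm w) k]
    refine Finset.sum_congr rfl fun l _ => ?_
    rw [LinearEquiv.apply_symm_apply]
    rfl
  have hfinT : Module.Finite ℚ_[p] (fixedSub τ' ⊤) := inferInstance
  refine ⟨Module.Finite.equiv hT.some.symm, ?_⟩
  have key := sum_finrank_twist τ τ' (E i₀).fixingSubgroup hτN hτN' (fun g => (θ g).trace) htr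
    (fun i => (E i).fixingSubgroup) h2 a m ha
  rw [hT.some.finrank_eq, ← key]
  exact Finset.sum_congr rfl fun i _ => by rw [(hE i).some.finrank_eq]

theorem twist_h0 (ρ : (Ω ≃ₐ[K] Ω) →* Matrix (Fin n) (Fin n) ℚ_[p])
    (θ : (Ω ≃ₐ[K] Ω) →* Matrix (Fin r) (Fin r) ℚ) {ι : Type} [Fintype ι]
    (E : ι → IntermediateField K Ω) [∀ i, NumberField (E i)] (a : ι → ℤ) (m : ℕ) (hm : 0 < m)
    (ha : ∀ g : Ω ≃ₐ[K] Ω, ∑ i, (a i : ℚ) * (fixCount (E i).fixingSubgroup g : ℚ) =
      m * (θ g).trace)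
    (i₀ : ι) (h0 : (E i₀).fixingSubgroup.Normal) (h1 : (E i₀).fixingSubgroup ≤ θ.ker)
    (h2 : ∀ i, (E i₀).fixingSubgroup ≤ (E i).fixingSubgroup) :
    ∑ i, a i * (Pool.BK.h0 (ρ.comp (resHom K (E i) Ω)) : ℤ) =
      m * (Pool.BK.h0 (tensorRep ρ θ) : ℤ) := by
  have hgal : IsGalois K Ω := isGalois
  have hfd : FiniteDimensional K (E i₀) := finite_of_numberField (E i₀)
  have hopen : IsOpen ((E i₀).fixingSubgroup : Set (Ω ≃ₐ[K] Ω)) :=
    (E i₀).fixingSubgroup_isOpen
  have hc : CompactSpace (Ω ≃ₐ[K] Ω) := inferInstance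
  have hq : Finite ((Ω ≃ₐ[K] Ω) ⧸ (E i₀).fixingSubgroup) :=
    Subgroup.quotient_finite_of_isOpen _ hopen
  have hFI : (E i₀).fixingSubgroup.FiniteIndex := Subgroup.finiteIndex_of_finite_quotient
  have hτ : ∀ g ∈ (E i₀).fixingSubgroup, repInv ρ (E i₀).fixingSubgroup g = 1 := fun g hg =>
    LinearMap.ext fun v => Subtype.ext (v.2 g hg)
  have hτ' : ∀ g ∈ (E i₀).fixingSubgroup,
      repInv (tensorRep ρ θ) (E i₀).fixingSubgroup g = 1 := fun g hg =>
    LinearMap.ext fun v => Subtype.ext (v.2 g hg)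
  have htr : ∀ g, LinearMap.trace ℚ_[p] _ (repInv (tensorRep ρ θ) (E i₀).fixingSubgroup g) =
      LinearMap.trace ℚ_[p] _ (repInv ρ (E i₀).fixingSubgroup g) *
        algebraMap ℚ ℚ_[p] (θ g).trace := by
    intro g
    rw [repInv_eq_endOn, repInv_eq_endOn]
    refine trace_endOn_tensor ρ θ _ h1 g fun x hx => ?_
    have h3 := h0.conj_mem x hx g⁻¹
    rwa [inv_inv] at h3
  have key := sum_finrank_twist (repInv ρ (E i₀).fixingSubgroup)
    (repInv (tensorRep ρ θ) (E i₀).fixingSubgroup) (E i₀).fixingSubgroup hτ hτ'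
    (fun g => (θ g).trace) htr (fun i => (E i).fixingSubgroup) h2 a m ha
  have h4 : (Pool.BK.h0 (tensorRep ρ θ) : ℤ) =
      (Module.finrank ℚ_[p] (fixedSub (repInv (tensorRep ρ θ) (E i₀).fixingSubgroup) ⊤) : ℤ) := by
    rw [Pool.BK.h0, (fixedEquiv (tensorRep ρ θ) (E i₀).fixingSubgroup ⊤ le_top).finrank_eq]
  rw [h4, ← key]
  refine Finset.sum_congr rfl fun i _ => ?_
  rw [Pool.BK.h0, invSub_comp, range_resHom,
    (fixedEquiv ρ (E i₀).fixingSubgroup _ (h2 i)).finrank_eq]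

end Dim

end Pool.BK
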