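import Pool.Agent.BKT.TwistTrace
import Pool.Agent.BK.LocalTrace

/-!
Local relation for the Euler polynomial of the twist of a representation by an Artin
representation over the rational numbers.
-/

open scoped Pointwise NumberField
open Polynomial IsDedekindDomain

namespace Pool.BK

section Local

variable {K : Type} [Field K] [NumberField K] {Ω : Type} [Field Ω] [Algebra K Ω] [IsAlgClosed Ω]
  [Algebra.IsAlgebraic K Ω]

theorem twist_local {F : Type} [Field F] [CharZero F] {n r : ℕ}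
    (ρ : (Ω ≃ₐ[K] Ω) →* Matrix (Fin n) (Fin n) F)
    (θ : (Ω ≃ₐ[K] Ω) →* Matrix (Fin r) (Fin r) ℚ) (hθ : IsOpen (θ.ker : Set (Ω ≃ₐ[K] Ω)))
    (v : HeightOneSpectrum (𝓞 K))
    (Q : Ideal (𝓞 Ω)) (hQ : Q.IsPrime) (hv : Q.under (𝓞 K) = v.asIdeal) (φ : Ω ≃ₐ[K] Ω)
    (hφ : ∀ x : 𝓞 Ω, φ • x - x ^ v.asIdeal.absNorm ∈ Q) {ι : Type} [Fintype ι]
    (E : ι → IntermediateField K Ω) [∀ i, NumberField (E i)] (a : ι → ℤ) (m : ℕ)
    (ha : ∀ g : Ω ≃ₐ[K] Ω, ∑ i, (a i : ℚ) * (fixCount (E i).fixingSubgroup g : ℚ) =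
      m * (θ g).trace)
    (P : ∀ i, HeightOneSpectrum (𝓞 (E i)) → F[X]) (hP : ∀ i, IsLocalFamily (E i) ρ v (P i)) :
    (eulerPoly (tensorRep ρ θ) Q φ) ^ m * ∏ i, (localProd K (E i) v (P i)) ^ (-(a i)).toNat =
      ∏ i, (localProd K (E i) v (P i)) ^ (a i).toNat ∧
    ∀ i, (localProd K (E i) v (P i)).coeff 0 = 1 := by
  classical
  obtain ⟨N₀, hN₀n, hN₀o, hN₀E⟩ := LocalTrace.exists_normal E
  -- intersect with the kernel of `θ`
  obtain ⟨N, hNn, hNo, hNE, hNθ⟩ : ∃ N : Subgroup (Ω ≃ₐ[K] Ω), N.Normal ∧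
      IsOpen (N : Set (Ω ≃ₐ[K] Ω)) ∧ (∀ i, N ≤ (E i).fixingSubgroup) ∧ N ≤ θ.ker := by
    haveI := hN₀n
    refine ⟨N₀ ⊓ θ.ker, inferInstance, ?_, fun i => inf_le_left.trans (hN₀E i), inf_le_right⟩
    rw [Subgroup.coe_inf]
    exact hN₀o.inter hθ
  haveI := hNn
  haveI := LocalTrace.finiteIndex_of_open N hNo
  have hL : ∀ i (k : ℕ), 0 < k → (localProd K (E i) v (P i)).coeff 0 = 1 ∧
      psum (localProd K (E i) v (P i)) k =
        locTr ρ (Q.inertia (Ω ≃ₐ[K] Ω)) N (φ ^ k)⁻¹ (fixCount (E i).fixingSubgroup) := by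
    intro i k hk
    have h := local_trace (E i) ρ v Q hQ hv φ hφ N hNo
      (by rw [LocalTrace.range_resHom]; exact hNE i) (P i) (hP i) hk
    rwa [LocalTrace.range_resHom] at h
  have hL0 : ∀ i, (localProd K (E i) v (P i)).coeff 0 = 1 := fun i => (hL i 1 one_pos).1
  refine ⟨?_, hL0⟩
  have he0 : (eulerPoly (tensorRep ρ θ) Q φ).coeff 0 = 1 := coeff_zero_reverse_charpoly _
  have hneg := fun k => LocalTrace.psum_prod Finset.univ
    (fun i => (localProd K (E i) v (P i)) ^ (-(a i)).toNat)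
    (fun i _ => (LocalTrace.psum_pow _ (hL0 i) _ 0).1) k
  have hpos := fun k => LocalTrace.psum_prod Finset.univ
    (fun i => (localProd K (E i) v (P i)) ^ (a i).toNat)
    (fun i _ => (LocalTrace.psum_pow _ (hL0 i) _ 0).1) k
  have hep := fun k => LocalTrace.psum_pow _ he0 m k
  refine eq_of_psum ?_ (hpos 0).1 fun k hk => ?_
  · rw [mul_coeff_zero, (hep 0).1, (hneg 0).1, one_mul]
  rw [psum_mul (hep 0).1 (hneg 0).1, (hneg k).2, (hpos k).2, (hep k).2]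
  have hID := LocalTrace.inertia_le (G := Ω ≃ₐ[K] Ω) Q
  have hDI := LocalTrace.conj_inertia (G := Ω ≃ₐ[K] Ω) Q
  have hφD := frob_mem_stabilizer v Q hQ hv φ hφ
  have he : psum (eulerPoly (tensorRep ρ θ) Q φ) k =
      locTr (tensorRep ρ θ) (Q.inertia (Ω ≃ₐ[K] Ω)) N (φ ^ k)⁻¹ (fun _ => 1) := by
    rw [eulerPoly, psum_charpoly _ hk]
    exact trace_formula_top (tensorRep ρ θ) (MulAction.stabilizer (Ω ≃ₐ[K] Ω) Q) _ N hID hDI φ
      hφD k
  -- the linear relation between the local traces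
  have hlin : ∑ i, (a i : F) * locTr ρ (Q.inertia (Ω ≃ₐ[K] Ω)) N (φ ^ k)⁻¹
        (fixCount (E i).fixingSubgroup) =
      m * locTr (tensorRep ρ θ) (Q.inertia (Ω ≃ₐ[K] Ω)) N (φ ^ k)⁻¹ (fun _ => 1) := by
    haveI : Fintype ((Q.inertia (Ω ≃ₐ[K] Ω)) ⧸ N.subgroupOf (Q.inertia (Ω ≃ₐ[K] Ω))) :=
      Fintype.ofFinite _
    have ha' : ∀ g, ∑ i, (a i : F) * (fixCount (E i).fixingSubgroup g : F) =
        m * algebraMap ℚ F (θ g).trace := fun g => by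
      have := congrArg (algebraMap ℚ F) (ha g)
      simp only [map_sum, map_mul, map_intCast, map_natCast] at this
      exact this
    simp only [locTr, finsum_eq_sum_of_fintype, Nat.cast_one, mul_one]
    have htr : ∀ j : (Q.inertia (Ω ≃ₐ[K] Ω)) ⧸ N.subgroupOf (Q.inertia (Ω ≃ₐ[K] Ω)),
        LinearMap.trace F _ (endOn (tensorRep ρ θ) (Q.inertia (Ω ≃ₐ[K] Ω) ⊓ N)
          ((φ ^ k)⁻¹ * (j.out : Ω ≃ₐ[K] Ω))) =
        LinearMap.trace F _ (endOn ρ (Q.inertia (Ω ≃ₐ[K] Ω) ⊓ N)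
          ((φ ^ k)⁻¹ * (j.out : Ω ≃ₐ[K] Ω))) *
          algebraMap ℚ F (θ ((φ ^ k)⁻¹ * (j.out : Ω ≃ₐ[K] Ω))).trace := fun j => by
      refine trace_endOn_tensor ρ θ _ (inf_le_right.trans hNθ) _ ?_
      refine Trace.conj_inf (MulAction.stabilizer (Ω ≃ₐ[K] Ω) Q) _ N hID hDI _ ?_
      exact Subgroup.mul_mem _ (Subgroup.inv_mem _ (Subgroup.pow_mem _ hφD _))
        (hID (j.out : Q.inertia (Ω ≃ₐ[K] Ω)).2)
    simp only [htr]
    simp only [Finset.mul_sum]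
    rw [Finset.sum_comm]
    refine Finset.sum_congr rfl fun j _ => ?_
    have h1 := ha' ((φ ^ k)⁻¹ * (j.out : Ω ≃ₐ[K] Ω))
    calc ∑ i, (a i : F) * ((Nat.card _ : F)⁻¹ * (LinearMap.trace F _ (endOn ρ
          (Q.inertia (Ω ≃ₐ[K] Ω) ⊓ N) ((φ ^ k)⁻¹ * (j.out : Ω ≃ₐ[K] Ω))) *
          (fixCount (E i).fixingSubgroup ((φ ^ k)⁻¹ * (j.out : Ω ≃ₐ[K] Ω)) : F)))
        = (Nat.card _ : F)⁻¹ * LinearMap.trace F _ (endOn ρ
          (Q.inertia (Ω ≃ₐ[K] Ω) ⊓ N) ((φ ^ k)⁻¹ * (j.out : Ω ≃ₐ[K] Ω))) *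
          ∑ i, (a i : F) * (fixCount (E i).fixingSubgroup
            ((φ ^ k)⁻¹ * (j.out : Ω ≃ₐ[K] Ω)) : F) := by
          rw [Finset.mul_sum]
          refine Finset.sum_congr rfl fun i _ => ?_
          ring
      _ = _ := by rw [h1]; ring
  rw [he, ← hlin, ← Finset.sum_add_distrib]
  refine Finset.sum_congr rfl fun i _ => ?_
  rw [(LocalTrace.psum_pow _ (hL0 i) _ k).2, (LocalTrace.psum_pow _ (hL0 i) _ k).2,
    (hL i k hk).2]
  have h1 : ((a i).toNat : F) = (a i : F) + ((-(a i)).toNat : F) := by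
    have h2 : ((a i).toNat : ℤ) = a i + ((-(a i)).toNat : ℤ) := by omega
    have h3 := congrArg (fun z : ℤ => (z : F)) h2
    push_cast at h3
    exact h3
  rw [h1]
  ring

end Local

end Pool.BK
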